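import Pool.Agent.MP_942673_co.Pw.Robust

/-! The collision counts for power maps that are only APN away from zero. -/

set_option autoImplicit false
set_option linter.unusedSectionVars false

namespace Pool.Agent.MP_942673_co.Pw

open Finset

variable {K : Type} [Field K] [Fintype K] [DecidableEq K] [CharP K 2]

/-- The elements other than zero and one. -/
def US (K : Type) [Field K] [Fintype K] [DecidableEq K] : Finset K :=
  Finset.univ.filter (fun x => x ≠ 0 ∧ x ≠ 1)

/-- The image of the derivative away from zero and one. -/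
def DS (K : Type) [Field K] [Fintype K] [DecidableEq K] (d : ℕ) : Finset K :=
  (US K).image (dl d)

theorem mem_US {x : K} : x ∈ US K ↔ x ≠ 0 ∧ x ≠ 1 := by simp [US]

theorem mem_DS {d : ℕ} {y : K} : y ∈ DS K d ↔ ∃ x, x ∈ US K ∧ dl d x = y := by
  simp [DS]

theorem card_US : (US K).card + 2 = Fintype.card K := by
  have h : US K = ({0, 1} : Finset K)ᶜ := by
    ext x
    simp [US]
  rw [h, Finset.card_compl, Finset.card_pair zero_ne_one]
  have : 2 ≤ Fintype.card K := Fintype.one_lt_card
  omega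

theorem succ_US {x : K} (hx : x ∈ US K) : x + 1 ∈ US K := by
  rw [mem_US] at hx ⊢
  exact ⟨fun h => hx.2 (by linear_combination h - two0 (K := K)),
    fun h => hx.1 (by linear_combination h)⟩

theorem sq_US (x : K) : x ^ 2 ∈ US K ↔ x ∈ US K := by
  have hi : Function.Injective (fun x : K => x ^ 2) := fun x y h => frobenius_inj K 2 h
  rw [mem_US, mem_US]
  refine and_congr (by simp) (not_congr ⟨fun h => hi (by simpa using h), fun h => ?_⟩)
  rw [h, one_pow]

theorem card_DS {d : ℕ} (hS : ∀ y : K, mu (US K) (dl d) y ≤ 2) :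
    2 * (DS K d).card = (US K).card := by
  have h1 := mu_sum (US K) (dl d : K → K) (DS K d)
  rw [Finset.filter_true_of_mem (fun x hx => mem_DS.mpr ⟨x, hx, rfl⟩)] at h1
  rw [← h1, mul_comm, ← smul_eq_mul, ← Finset.sum_const]
  refine Finset.sum_congr rfl fun y hy => le_antisymm ?_ (hS y)
  obtain ⟨x, hxu, rfl⟩ := mem_DS.mp hy
  have hx : x ≠ x + 1 := by simp
  rw [← Finset.card_pair hx]
  refine Finset.card_le_card fun z hz => ?_
  simp only [Finset.mem_insert, Finset.mem_singleton] at hz
  rcases hz with rfl | rfl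
  · exact Finset.mem_filter.mpr ⟨hxu, rfl⟩
  · exact Finset.mem_filter.mpr ⟨succ_US hxu, dl_succ d x⟩

theorem pairs_S {d : ℕ} (hS : ∀ y : K, mu (US K) (dl d) y ≤ 2) (f : K → K) :
    ((US K ×ˢ US K).filter (fun p : K × K => dl d p.1 = f p.2)).card ≤
      2 * ((US K).filter (fun w => f w ∈ DS K d)).card := by
  refine Finset.card_le_mul_card_image_of_maps_to (f := Prod.snd) ?_ 2 ?_
  · intro p hp
    simp only [Finset.mem_filter, Finset.mem_product] at hp ⊢
    exact ⟨hp.1.2, mem_DS.mpr ⟨p.1, hp.1.1, hp.2⟩⟩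
  · intro w _
    refine le_trans ?_ (hS (f w))
    unfold mu
    refine Finset.card_le_card_of_injOn Prod.fst ?_ ?_
    · intro p hp
      simp only [Finset.coe_filter, Finset.mem_filter, Finset.mem_product,
        Set.mem_ofPred_eq] at hp ⊢
      exact ⟨hp.1.1.1, by rw [hp.1.2, hp.2]⟩
    · intro p hp q hq h
      simp only [Finset.coe_filter, Finset.mem_filter, Set.mem_ofPred_eq] at hp hq
      exact Prod.ext h (hp.2.trans hq.2.symm)

theorem off_S {d : ℕ} (hS : ∀ y : K, mu (US K) (dl d) y ≤ 2) (b c : K) :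
    ((US K ×ˢ US K).filter
      (fun p : K × K => p.1 ≠ p.2 ∧ gg d b p.1 = gg d c p.2)).card ≤
      2 * ((US K).filter (fun w => b * w ^ d + c * (w + 1) ^ d ∈ DS K d)).card := by
  refine le_trans ?_ (pairs_S hS (fun w => b * w ^ d + c * (w + 1) ^ d))
  have hne : ∀ x x' : K, x ≠ x' → x + x' ≠ 0 := fun x x' h h0 =>
    h (by linear_combination h0 - x' * two0 (K := K))
  refine Finset.card_le_card_of_injOn
    (fun p : K × K => (p.1 / (p.1 + p.2), (p.1 + 1) / (p.1 + p.2))) ?_ ?_
  · rintro ⟨x, x'⟩ hp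
    simp only [Finset.coe_filter, Finset.mem_product, mem_US, Set.mem_ofPred_eq] at hp ⊢
    obtain ⟨⟨⟨h0, h1⟩, h0', h2⟩, h3, h4⟩ := hp
    have ha := hne x x' h3
    have e1 : x / (x + x') + 1 = x' / (x + x') := by
      field_simp
      linear_combination x * two0 (K := K)
    have e2 : (x + 1) / (x + x') + 1 = (x' + 1) / (x + x') := by
      field_simp
      linear_combination x * two0 (K := K)
    refine ⟨⟨⟨div_ne_zero h0 ha, fun h => h0' ?_⟩, div_ne_zero (hne x 1 h1) ha,
      fun h => h2 ?_⟩, ?_⟩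
    · rw [div_eq_one_iff_eq ha] at h
      linear_combination -h
    · rw [div_eq_one_iff_eq ha] at h
      linear_combination -h
    · unfold dl
      unfold gg at h4
      rw [e1, e2]
      simp only [div_pow]
      have hd : (x + x') ^ d ≠ 0 := pow_ne_zero _ ha
      field_simp
      linear_combination h4 + (x' ^ d - b * (x + 1) ^ d) * two0 (K := K)
  · rintro ⟨x, x'⟩ hp ⟨z, z'⟩ hq h
    simp only [Finset.coe_filter, Set.mem_ofPred_eq] at hp hq
    have ha := hne x x' hp.2.1
    have hb := hne z z' hq.2.1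
    simp only [Prod.mk.injEq] at h
    obtain ⟨h1, h2⟩ := h
    rw [div_eq_div_iff ha hb] at h1 h2
    have h3 : z + z' = x + x' := by linear_combination h2 - h1
    rw [h3] at h1
    have h4 : x = z := mul_right_cancel₀ ha h1
    refine Prod.ext h4 ?_
    show x' = z'
    linear_combination -h3 - h4

theorem sq_DS {d : ℕ} (y : K) : y ^ 2 ∈ DS K d ↔ y ∈ DS K d := by
  have hs : ∀ x : K, dl d (x ^ 2) = dl d x ^ 2 := by
    intro x
    unfold dl
    have : x ^ 2 + 1 = (x + 1) ^ 2 := by linear_combination (-x) * two0 (K := K)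
    rw [this, CharTwo.add_sq (x ^ d), ← pow_mul, ← pow_mul, ← pow_mul, ← pow_mul, mul_comm]
  have hi : Function.Injective (fun x : K => x ^ 2) := fun x y h => frobenius_inj K 2 h
  constructor
  · intro h
    obtain ⟨x, hu, hx⟩ := mem_DS.mp h
    obtain ⟨t, rfl⟩ := (Finite.injective_iff_surjective.mp hi) x
    exact mem_DS.mpr ⟨t, (sq_US t).mp hu, hi ((hs t).symm.trans hx)⟩
  · intro h
    obtain ⟨x, hu, rfl⟩ := mem_DS.mp h
    exact mem_DS.mpr ⟨x ^ 2, (sq_US x).mpr hu, hs x⟩

theorem A_S {d : ℕ} (b : K) :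
    ((DS K d).filter (fun y => b ^ 2 * y ∈ DS K d)).card =
      ((DS K d).filter (fun y => b * y ∈ DS K d)).card := by
  have hi : Function.Injective (fun x : K => x ^ 2) := fun x y h => frobenius_inj K 2 h
  symm
  refine Finset.card_bij (fun y _ => y ^ 2) ?_ (fun x _ y _ h => hi h) ?_
  · intro y hy
    simp only [Finset.mem_filter] at hy ⊢
    rw [← mul_pow, sq_DS, sq_DS]
    exact hy
  · intro y hy
    obtain ⟨t, rfl⟩ := (Finite.injective_iff_surjective.mp hi) y
    simp only [Finset.mem_filter] at hy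
    rw [← mul_pow, sq_DS, sq_DS] at hy
    exact ⟨t, Finset.mem_filter.mpr hy, rfl⟩

theorem coll_S {d : ℕ} (hS : ∀ y : K, mu (US K) (dl d) y ≤ 2) (b : K) :
    ((US K ×ˢ US K).filter (fun p : K × K => gg d b p.1 = gg d b p.2)).card ≤
      (US K).card + 4 * ((DS K d).filter (fun y => b * y ∈ DS K d)).card := by
  have h1 := off_S hS b b
  have h2 : ((US K).filter (fun w => b * w ^ d + b * (w + 1) ^ d ∈ DS K d)).card ≤
      2 * ((DS K d).filter (fun y => b * y ∈ DS K d)).card := by
    refine Finset.card_le_mul_card_image_of_maps_to (f := dl d) ?_ 2 ?_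
    · intro w hw
      simp only [Finset.mem_filter] at hw ⊢
      refine ⟨mem_DS.mpr ⟨w, hw.1, rfl⟩, ?_⟩
      unfold dl
      rw [mul_add]
      exact hw.2
    · intro y _
      refine le_trans ?_ (hS y)
      exact Finset.card_le_card (Finset.filter_subset_filter _ (Finset.filter_subset _ _))
  have h3 : ((US K ×ˢ US K).filter (fun p : K × K => gg d b p.1 = gg d b p.2)) ⊆
      (US K).diag ∪ ((US K ×ˢ US K).filter
      (fun p : K × K => p.1 ≠ p.2 ∧ gg d b p.1 = gg d b p.2)) := by
    intro p hp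
    simp only [Finset.mem_filter, Finset.mem_union, Finset.mem_diag, Finset.mem_product] at hp ⊢
    by_cases h : p.1 = p.2
    · exact Or.inl ⟨hp.1.1, h⟩
    · exact Or.inr ⟨hp.1, h, hp.2⟩
  have h4 := (Finset.card_le_card h3).trans (Finset.card_union_le _ _)
  rw [Finset.diag_card] at h4
  omega

theorem E_S {d : ℕ} (b : K) :
    ((US K).filter (fun x => gg d (b ^ 2) x ∈ DS K d)).card =
      ((US K).filter (fun x => gg d b x ∈ DS K d)).card := by
  have hi : Function.Injective (fun x : K => x ^ 2) := fun x y h => frobenius_inj K 2 h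
  have hs : ∀ x : K, gg d (b ^ 2) (x ^ 2) = gg d b x ^ 2 := by
    intro x
    unfold gg
    have : x ^ 2 + 1 = (x + 1) ^ 2 := by linear_combination (-x) * two0 (K := K)
    rw [this, CharTwo.add_sq (x ^ d), mul_pow, ← pow_mul, ← pow_mul, ← pow_mul, ← pow_mul,
      mul_comm 2 d]
  symm
  refine Finset.card_bij (fun y _ => y ^ 2) ?_ (fun x _ y _ h => hi h) ?_
  · intro y hy
    simp only [Finset.mem_filter] at hy ⊢
    rw [hs, sq_DS, sq_US]
    exact hy
  · intro y hy
    obtain ⟨t, rfl⟩ := (Finite.injective_iff_surjective.mp hi) y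
    simp only [Finset.mem_filter] at hy
    rw [hs, sq_DS, sq_US] at hy
    exact ⟨t, Finset.mem_filter.mpr hy, rfl⟩

theorem arith3 (h A M M' E u : ℤ) (hh : 60 ≤ h) (hA : A ≤ h) (hE : 50 * E + 147 < 3 * h)
    (hE0 : 0 ≤ E) (hu : u + E = 2 * h) (hM : M ≤ E + M')
    (h1 : (2 * u) ^ 2 ≤ (h + 2) * (2 * (2 * h + 4 * A) + 4 * M))
    (h2 : M' ^ 2 ≤ (h - A) * (2 * h + 4 * A)) : False := by
  have hu' : u = 2 * h - E := by omega
  subst hu'
  have h3 : 16 * h - 32 - 16 * E ≤ 2 * (2 * h + 4 * A) + 4 * M := by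
    by_contra hc
    push Not at hc
    nlinarith [sq_nonneg E]
  have h4 : 529 * h - 400 * A ≤ 200 * M' := by omega
  have h5 : (529 * h - 400 * A) ^ 2 ≤ (200 * M') ^ 2 := by
    apply pow_le_pow_left₀ _ h4
    omega
  nlinarith [sq_nonneg (800 * A - 629 * h), mul_pos (by omega : 0 < h) (by omega : 0 < h)]

theorem main_S {d : ℕ} (hS : ∀ y : K, mu (US K) (dl d) y ≤ 2)
    (hN : 128 ≤ Fintype.card K) {b : K} (hb0 : b ≠ 0) (hb1 : b ≠ 1) :
    3 * Fintype.card K ≤
      100 * ((US K).filter (fun x => gg d b x ∈ DS K d)).card + 300 := by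
  by_contra hcon
  have hE2 := E_S (d := d) b
  have hD := card_DS hS
  have hUc := card_US (K := K)
  have q1 := fun T => (mu_mul (US K) (gg d b) (gg d b) T).trans (coll_S hS b)
  have q2 := fun T => (mu_mul (US K) (gg d (b ^ 2)) (gg d (b ^ 2)) T).trans (coll_S hS (b ^ 2))
  rw [A_S] at q2
  have q0 := off_S hS b (b ^ 2)
  have hmem : ∀ x ∈ US K, x ≠ 1 := fun x hx => (mem_US.mp hx).2
  generalize US K = U at *
  generalize DS K d = D at *
  set E := (U.filter (fun x => gg d b x ∈ D)).card with hE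
  set A := (D.filter (fun y => b * y ∈ D)).card with hAdef
  set M := (U.filter (fun w => b * gg d b w ∈ D)).card with hM
  have hc : Dᶜ.card = D.card + 2 := by
    rw [Finset.card_compl]
    omega
  have q3 : ∑ y ∈ Dᶜ, mu U (gg d b) y * mu U (gg d (b ^ 2)) y ≤ 2 * M := by
    refine (mu_mul U _ _ _).trans (le_trans (Finset.card_le_card ?_) (q0.trans (le_of_eq ?_)))
    · intro p hp
      simp only [Finset.mem_filter] at hp ⊢
      refine ⟨hp.1, fun h => ?_, hp.2⟩
      have h5 := hp.2
      have h6 : p.2 ≠ 1 := hmem _ (Finset.mem_product.mp hp.1).2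
      have h7 : (p.2 + 1) ^ d ≠ 0 := pow_ne_zero _ fun h0 =>
        h6 (by linear_combination h0 - two0 (K := K))
      rw [h] at h5
      unfold gg at h5
      have h8 : b * (b - 1) * (p.2 + 1) ^ d = 0 := by linear_combination -h5
      simp only [mul_eq_zero, sub_eq_zero] at h8
      tauto
    · congr 2
      ext w
      have : b * gg d b w = b * w ^ d + b ^ 2 * (w + 1) ^ d := by unfold gg; ring
      simp only [Finset.mem_filter, this]
  obtain ⟨u, hu⟩ : ∃ u, u + E = U.card := ⟨U.card - E,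
    Nat.sub_add_cancel (Finset.card_filter_le _ _)⟩
  have s1 : ∑ y ∈ Dᶜ, mu U (gg d b) y = u := by
    have := Finset.card_filter_add_card_filter_not (s := U) (fun x => gg d b x ∈ D)
    rw [mu_sum]
    simp only [Finset.mem_compl]
    omega
  have s2 : ∑ y ∈ Dᶜ, mu U (gg d (b ^ 2)) y = u := by
    have := Finset.card_filter_add_card_filter_not (s := U) (fun x => gg d (b ^ 2) x ∈ D)
    rw [mu_sum]
    simp only [Finset.mem_compl]
    omega
  have c1 : (2 * u) ^ 2 ≤ (D.card + 2) * (2 * (U.card + 4 * A) + 4 * M) := by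
    have := sq_sum_le_card_mul_sum_sq (s := Dᶜ)
      (f := fun y => mu U (gg d b) y + mu U (gg d (b ^ 2)) y)
    rw [Finset.sum_add_distrib, s1, s2, hc, ← two_mul] at this
    refine this.trans (Nat.mul_le_mul_left _ ?_)
    have e : ∑ y ∈ Dᶜ, (mu U (gg d b) y + mu U (gg d (b ^ 2)) y) ^ 2 =
        ∑ y ∈ Dᶜ, mu U (gg d b) y * mu U (gg d b) y +
        ∑ y ∈ Dᶜ, mu U (gg d (b ^ 2)) y * mu U (gg d (b ^ 2)) y +
        2 * ∑ y ∈ Dᶜ, mu U (gg d b) y * mu U (gg d (b ^ 2)) y := by
      rw [Finset.mul_sum, ← Finset.sum_add_distrib, ← Finset.sum_add_distrib]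
      exact Finset.sum_congr rfl fun y _ => by ring
    have := q1 Dᶜ
    have := q2 Dᶜ
    omega
  set T : Finset K := Finset.univ.filter (fun y => y ∉ D ∧ b * y ∈ D) with hT
  have t1 : T.card + A = D.card := by
    have e1 : (Finset.univ.filter (fun y => b * y ∈ D)).card = D.card := by
      refine Finset.card_bij (fun y _ => b * y) (fun y hy => (Finset.mem_filter.mp hy).2)
        (fun x _ y _ h => mul_left_cancel₀ hb0 h) fun y hy => ⟨y / b, ?_, ?_⟩
      · simp only [Finset.mem_filter, Finset.mem_univ, true_and]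
        rwa [mul_div_cancel₀ _ hb0]
      · exact mul_div_cancel₀ _ hb0
    have e2 := Finset.card_filter_add_card_filter_not (s := Finset.univ.filter
      (fun y => b * y ∈ D)) (fun y => y ∈ D)
    have e3 : (Finset.univ.filter (fun y => b * y ∈ D)).filter (fun y => y ∈ D) =
        D.filter (fun y => b * y ∈ D) := by
      ext y
      simp [and_comm]
    have e4 : (Finset.univ.filter (fun y => b * y ∈ D)).filter (fun y => ¬ y ∈ D) = T := by
      ext y
      simp [hT, and_comm]
    rw [e3, e4, e1] at e2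
    omega
  set M' := (U.filter (fun w => gg d b w ∈ T)).card with hM'
  have m1 : M ≤ E + M' := by
    refine le_trans (Finset.card_le_card ?_) (Finset.card_union_le _ _)
    intro w hw
    simp only [hT, Finset.mem_filter, Finset.mem_union, Finset.mem_univ, true_and] at hw ⊢
    by_cases h : gg d b w ∈ D
    · exact Or.inl ⟨hw.1, h⟩
    · exact Or.inr ⟨hw.1, h, hw.2⟩
  have c2 : M' ^ 2 ≤ T.card * (U.card + 4 * A) := by
    have := sq_sum_le_card_mul_sum_sq (s := T) (f := fun y => mu U (gg d b) y)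
    rw [mu_sum] at this
    refine this.trans (Nat.mul_le_mul_left _ ?_)
    simpa only [sq] using q1 T
  have eU : (U.card : ℤ) = 2 * (D.card : ℤ) := by omega
  have eT : (T.card : ℤ) = (D.card : ℤ) - A := by omega
  refine arith3 D.card A M M' E u (by omega) (by omega) (by omega) (by omega) (by omega)
    (by omega) ?_ ?_
  · rw [← eU]
    exact_mod_cast c1
  · rw [← eU, ← eT]
    exact_mod_cast c2

end Pool.Agent.MP_942673_co.Pw
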