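import Pool.Agent.MP_942673_co.Pw.Main
import Pool.Agent.MP_942673_co.Pw.Star

/-! Distance of an APN function from an arbitrary power map. -/

set_option autoImplicit false
set_option linter.unusedSectionVars false

namespace Pool.Agent.MP_942673_co.Pw

open Finset

variable {K : Type} [Field K] [Fintype K] [DecidableEq K] [CharP K 2]

theorem root_US {d : ℕ} (hd : d ≠ 0) {r : K} (h1 : r ≠ 1) (hr : r ^ d = 1) :
    (r + 1)⁻¹ ∈ US K ∧ dl d (r + 1)⁻¹ = 0 := by
  have hw : r + 1 ≠ 0 := fun h0 => h1 (by linear_combination h0 - two0 (K := K))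
  have h0 : r ≠ 0 := by
    rintro rfl
    rw [zero_pow hd] at hr
    exact zero_ne_one hr
  refine ⟨mem_US.mpr ⟨inv_ne_zero hw, fun h => h0 ?_⟩, ?_⟩
  · rw [inv_eq_one] at h
    linear_combination h
  · have e : (r + 1)⁻¹ + 1 = r * (r + 1)⁻¹ := by
      field_simp
      linear_combination two0 (K := K)
    unfold dl
    rw [e, mul_pow, hr, one_mul, CharTwo.add_self_eq_zero]

theorem roots_S {d : ℕ} (hS : ∀ y : K, mu (US K) (dl d) y ≤ 2) (hd : d ≠ 0) :
    (Finset.univ.filter fun r : K => r ^ d = 1).card ≤ 3 := by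
  have h0 : (Finset.univ.filter (fun r : K => r ≠ 1 ∧ r ^ d = 1)).card ≤ 2 := by
    refine le_trans ?_ (hS 0)
    unfold mu
    refine Finset.card_le_card_of_injOn (fun r => (r + 1)⁻¹) ?_ ?_
    · intro r hr
      simp only [Finset.coe_filter, Finset.mem_univ, true_and, Set.mem_ofPred_eq] at hr ⊢
      exact root_US hd hr.1 hr.2
    · intro r _ s _ h
      exact add_right_cancel (inv_injective h)
  have h1 : (Finset.univ.filter fun r : K => r ^ d = 1) ⊆
      insert 1 (Finset.univ.filter (fun r : K => r ≠ 1 ∧ r ^ d = 1)) := by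
    intro r hr
    by_cases h : r = 1
    · simp [h]
    · simpa [h] using hr
  have h2 := (Finset.card_le_card h1).trans (Finset.card_insert_le _ _)
  omega

theorem vert_S {d : ℕ} (hS : ∀ y : K, mu (US K) (dl d) y ≤ 2) (hd : d ≠ 0)
    (hN : 16 ≤ Fintype.card K) {e : K} (he : e ≠ 0)
    (h : ∀ c : K, c ≠ 0 → 1 + c ^ d * e ∉ DS K d) : False := by
  have hD := card_DS hS
  have hU := card_US (K := K)
  have hc : (DS K d)ᶜ.card = (DS K d).card + 2 := by
    rw [Finset.card_compl]
    omega
  have hu : (Finset.univ.erase (0 : K)).card + 1 = Fintype.card K := by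
    rw [Finset.card_erase_add_one (Finset.mem_univ _), Finset.card_univ]
  have hi : Function.Injective (fun x : K => x ^ 2) := fun x y h => frobenius_inj K 2 h
  have h' : ∀ c : K, c ≠ 0 → 1 + c ^ d * e ^ 2 ∉ DS K d := by
    intro c hc0
    obtain ⟨t, rfl⟩ := (Finite.injective_iff_surjective.mp hi) c
    have e1 : 1 + (t ^ 2) ^ d * e ^ 2 = (1 + t ^ d * e) ^ 2 := by
      rw [CharTwo.add_sq, one_pow, mul_pow, ← pow_mul, ← pow_mul, mul_comm 2 d]
    simp only at hc0 ⊢
    rw [e1, sq_DS]
    exact h t fun h0 => hc0 (by simp [h0])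
  by_cases hr : ∃ r : K, r ≠ 1 ∧ r ^ d = 1
  · obtain ⟨r, h1, h2⟩ := hr
    have h4 : ∀ c : K, c ^ d ≠ e := fun c hce => by
      have c0 : c ≠ 0 := fun h0 => he (by rw [← hce, h0, zero_pow hd])
      refine h c⁻¹ (inv_ne_zero c0) ?_
      rw [← hce, ← mul_pow, inv_mul_cancel₀ c0, one_pow, CharTwo.add_self_eq_zero]
      exact mem_DS.mpr ⟨_, root_US hd h1 h2⟩
    have fb : ∀ t : K, t ≠ 0 → ∀ y : K,
        mu (Finset.univ.erase (0 : K)) (fun c => 1 + c ^ d * t) y ≤ 3 := by
      intro t ht y
      by_cases hy : (y - 1) / t = 0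
      · unfold mu
        rw [Finset.filter_false_of_mem]
        · simp
        · intro c hc hcy
          rw [← hcy, add_sub_cancel_left, mul_div_cancel_right₀ _ ht] at hy
          exact pow_ne_zero _ (Finset.mem_erase.mp hc).1 hy
      · refine le_trans (Finset.card_le_card fun c hc => ?_) (fib_Zero hd (roots_S hS hd) hy)
        simp only [Finset.mem_filter, Finset.mem_univ, true_and] at hc ⊢
        rw [← hc.2, add_sub_cancel_left, mul_div_cancel_right₀ _ ht]
    have s1 : ∑ y ∈ (DS K d)ᶜ, mu (Finset.univ.erase (0 : K)) (fun c => 1 + c ^ d * e) y =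
        (Finset.univ.erase (0 : K)).card := by
      rw [mu_sum, Finset.filter_true_of_mem]
      exact fun x hx => Finset.mem_compl.mpr (h x (Finset.mem_erase.mp hx).1)
    have s2 : ∑ y ∈ (DS K d)ᶜ, mu (Finset.univ.erase (0 : K)) (fun c => 1 + c ^ d * e ^ 2) y =
        (Finset.univ.erase (0 : K)).card := by
      rw [mu_sum, Finset.filter_true_of_mem]
      exact fun x hx => Finset.mem_compl.mpr (h' x (Finset.mem_erase.mp hx).1)
    have s3 : ∑ y ∈ (DS K d)ᶜ, (mu (Finset.univ.erase (0 : K)) (fun c => 1 + c ^ d * e) y +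
        mu (Finset.univ.erase (0 : K)) (fun c => 1 + c ^ d * e ^ 2) y) ≤
        ∑ _y ∈ (DS K d)ᶜ, 3 := by
      refine Finset.sum_le_sum fun y _ => ?_
      have p1 := fb e he y
      have p2 := fb (e ^ 2) (pow_ne_zero _ he) y
      by_contra hcon
      have q1 : 0 < mu (Finset.univ.erase (0 : K)) (fun c => 1 + c ^ d * e) y := by omega
      have q2 : 0 < mu (Finset.univ.erase (0 : K)) (fun c => 1 + c ^ d * e ^ 2) y := by omega
      obtain ⟨u, hu⟩ := Finset.card_pos.mp q1
      obtain ⟨v, hv⟩ := Finset.card_pos.mp q2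
      simp only [Finset.mem_filter, Finset.mem_erase] at hu hv
      refine h4 (u / v) ?_
      rw [div_pow, div_eq_iff (pow_ne_zero _ hv.1.1)]
      refine mul_right_cancel₀ he ?_
      linear_combination hu.2 - hv.2
    rw [Finset.sum_add_distrib, s1, s2, Finset.sum_const, smul_eq_mul] at s3
    omega
  · have h5 : (Finset.univ.erase (0 : K)).card ≤ (DS K d)ᶜ.card := by
      refine Finset.card_le_card_of_injOn (fun c => 1 + c ^ d * e) ?_ ?_
      · intro x hx
        exact Finset.mem_coe.mpr (Finset.mem_compl.mpr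
          (h x (Finset.mem_erase.mp (Finset.mem_coe.mp hx)).1))
      · intro x _ y hy hxy
        have hy0 := (Finset.mem_erase.mp (Finset.mem_coe.mp hy)).1
        have h6 : x ^ d = y ^ d := mul_right_cancel₀ he (add_left_cancel hxy)
        by_contra hne
        refine hr ⟨x / y, fun h1 => hne ((div_eq_one_iff_eq hy0).mp h1), ?_⟩
        rw [div_pow, h6, div_self (pow_ne_zero _ hy0)]
    omega

theorem apn_S {d : ℕ} (hS : ∀ y : K, mu (US K) (dl d) y ≤ 2) (a : K) (ha : a ≠ 0) (b : K) :
    (Finset.univ.filter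
      (fun x : K => x ≠ 0 ∧ x + a ≠ 0 ∧ (x + a) ^ d + x ^ d = b)).card ≤ 2 := by
  refine le_trans ?_ (hS (b / a ^ d))
  unfold mu
  refine Finset.card_le_card_of_injOn (fun x => x / a) ?_ fun x _ y _ h => (div_left_inj' ha).mp h
  intro x hx
  simp only [Finset.coe_filter, Finset.mem_univ, true_and, Set.mem_ofPred_eq, mem_US] at hx ⊢
  refine ⟨⟨div_ne_zero hx.1 ha, fun h => hx.2.1 ?_⟩, ?_⟩
  · rw [div_eq_one_iff_eq ha] at h
    rw [h, CharTwo.add_self_eq_zero]
  · unfold dl
    rw [div_add_one ha, div_pow, div_pow, ← add_div, add_comm, hx.2.2]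

theorem apn_A {d : ℕ} (hA : ∀ y : K, mu Finset.univ (dl d) y ≤ 2) (a : K) (ha : a ≠ 0) (b : K) :
    (Finset.univ.filter (fun x : K => (x + a) ^ d + x ^ d = b)).card ≤ 2 := by
  refine le_trans ?_ (hA (b / a ^ d))
  unfold mu
  refine Finset.card_le_card_of_injOn (fun x => x / a) ?_ fun x _ y _ h => (div_left_inj' ha).mp h
  intro x hx
  simp only [Finset.coe_filter, Finset.mem_univ, true_and, Set.mem_ofPred_eq] at hx ⊢
  unfold dl
  rw [div_add_one ha, div_pow, div_pow, ← add_div, add_comm, hx]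

theorem three {d : ℕ} {V : Finset K} {y : K} (h : 2 < mu V (dl d) y) :
    ∃ x ∈ V, ∃ z ∈ V, z ≠ x ∧ z ≠ x + 1 ∧ dl d x = dl d z := by
  obtain ⟨a, b, c, ha, hb, hc, h1, h2, h3⟩ := Finset.two_lt_card_iff.mp h
  simp only [Finset.mem_filter] at ha hb hc
  by_cases hb1 : b = a + 1
  · exact ⟨a, ha.1, c, hc.1, h2.symm, fun h => h3 (hb1.trans h.symm), ha.2.trans hc.2.symm⟩
  · exact ⟨a, ha.1, b, hb.1, h1.symm, hb1, ha.2.trans hb.2.symm⟩

theorem flat_bound {d : ℕ} (F : K → K)
    (hF : ∀ a : K, a ≠ 0 → ∀ b : K,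
      (Finset.univ.filter (fun x : K => F (x + a) + F x = b)).card ≤ 2)
    {x z : K} (h1 : z ≠ x) (h2 : z ≠ x + 1) (h3 : dl d x = dl d z)
    (h0 : F 0 = 0 ^ d ∨ (x ∈ US K ∧ z ∈ US K)) :
    Fintype.card K ≤ 4 * hammingDist F (fun x => x ^ d) + 1 := by
  have t2 := two0 (K := K)
  have one : ∀ p : K, (F 0 = 0 ^ d ∨ p ≠ 0) →
      (Finset.univ.filter (fun c : K => F (c * p) ≠ (c * p) ^ d)).card ≤
        hammingDist F (fun x => x ^ d) := by
    intro p hp
    by_cases hp0 : p = 0
    · rw [Finset.filter_false_of_mem]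
      · simp
      · intro c _
        simpa [hp0] using hp
    · exact Finset.card_le_card_of_injOn (fun c => c * p) (fun c hc => by simpa using hc)
        fun c _ c' _ h => mul_right_cancel₀ hp0 h
  have a1 := one x (h0.imp id fun h => (mem_US.mp h.1).1)
  have a2 := one (x + 1) (h0.imp id fun h => (mem_US.mp (succ_US h.1)).1)
  have a3 := one z (h0.imp id fun h => (mem_US.mp h.2).1)
  have a4 := one (z + 1) (h0.imp id fun h => (mem_US.mp (succ_US h.2)).1)
  have hsub : Finset.univ.erase (0 : K) ⊆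
      Finset.univ.filter (fun c : K => F (c * x) ≠ (c * x) ^ d) ∪
      (Finset.univ.filter (fun c : K => F (c * (x + 1)) ≠ (c * (x + 1)) ^ d) ∪
      (Finset.univ.filter (fun c : K => F (c * z) ≠ (c * z) ^ d) ∪
      Finset.univ.filter (fun c : K => F (c * (z + 1)) ≠ (c * (z + 1)) ^ d))) := by
    intro c hc
    have c0 := (Finset.mem_erase.mp hc).1
    by_contra hcon
    simp only [Finset.mem_union, Finset.mem_filter, Finset.mem_univ, true_and, not_or,
      not_not] at hcon
    obtain ⟨b1, b2, b3, b4⟩ := hcon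
    have hs : ({c * x, c * (x + 1), c * z} : Finset K) ⊆
        Finset.univ.filter (fun t : K => F (t + c) + F t = c ^ d * dl d x) := by
      intro t ht
      simp only [Finset.mem_insert, Finset.mem_singleton] at ht
      simp only [Finset.mem_filter, Finset.mem_univ, true_and]
      rcases ht with rfl | rfl | rfl
      · rw [show c * x + c = c * (x + 1) by ring, b1, b2, mul_pow, mul_pow]
        unfold dl
        ring
      · rw [show c * (x + 1) + c = c * x by linear_combination c * t2, b1, b2, mul_pow, mul_pow]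
        unfold dl
        ring
      · rw [show c * z + c = c * (z + 1) by ring, b3, b4, mul_pow, mul_pow, h3]
        unfold dl
        ring
    have := (Finset.card_le_card hs).trans (hF _ c0 _)
    rw [Finset.card_eq_three.mpr ⟨_, _, _, fun h => by simpa using mul_left_cancel₀ c0 h,
      fun h => h1 (mul_left_cancel₀ c0 h).symm, fun h => h2 (mul_left_cancel₀ c0 h).symm,
      rfl⟩] at this
    omega
  have h5 := (Finset.card_le_card hsub).trans ((Finset.card_union_le _ _).trans
    (add_le_add le_rfl ((Finset.card_union_le _ _).trans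
      (add_le_add le_rfl (Finset.card_union_le _ _)))))
  have hu : (Finset.univ.erase (0 : K)).card + 1 = Fintype.card K := by
    rw [Finset.card_erase_add_one (Finset.mem_univ _), Finset.card_univ]
  omega

theorem dist_S (H F : K → K)
    (hH : ∀ a : K, a ≠ 0 → ∀ b : K,
      (Finset.univ.filter (fun x : K => x ≠ 0 ∧ x + a ≠ 0 ∧ H (x + a) + H x = b)).card ≤ 2)
    (hF : ∀ a : K, a ≠ 0 → ∀ b : K,
      (Finset.univ.filter (fun x : K => F (x + a) + F x = b)).card ≤ 2)
    {u : K} (hu0 : u ≠ 0) (hu : F u ≠ H u) (h0 : F 0 ≠ H 0) :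
    (Finset.univ.filter (fun X : K => X ≠ 0 ∧ ∃ Y : K, Y ≠ 0 ∧ X + Y + u ≠ 0 ∧
      H X + H Y + H (X + Y + u) = F u)).card + 6 ≤ 3 * hammingDist F H := by
  set W : Finset K := ((Finset.univ.filter (fun v => F v ≠ H v)).erase u).erase 0 with hW
  have hWc : W.card + 2 = hammingDist F H := by
    have e1 := Finset.card_erase_add_one (s := Finset.univ.filter (fun v => F v ≠ H v)) (a := u)
      (by simpa using hu)
    have e2 := Finset.card_erase_add_one
      (s := (Finset.univ.filter (fun v => F v ≠ H v)).erase u) (a := 0)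
      (by simpa using ⟨hu0.symm, h0⟩)
    unfold hammingDist
    rw [← hW] at e2
    omega
  have t2 := two0 (K := K)
  have key : (Finset.univ.filter (fun X : K => X ≠ 0 ∧ ∃ Y : K, Y ≠ 0 ∧ X + Y + u ≠ 0 ∧
      H X + H Y + H (X + Y + u) = F u)) ⊆
      W.biUnion (fun v => insert v (Finset.univ.filter
        (fun x : K => x ≠ 0 ∧ x + (u + v) ≠ 0 ∧ H (x + (u + v)) + H x = F u + H v))) := by
    intro X hX
    obtain ⟨z1, Y, z2, z3, hY⟩ := (Finset.mem_filter.mp hX).2
    have n1 : X ≠ u := by
      rintro rfl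
      rw [show X + Y + X = Y by linear_combination X * t2] at hY
      exact hu (by linear_combination -hY + H Y * t2)
    have n2 : Y ≠ u := by
      rintro rfl
      rw [show X + Y + Y = X by linear_combination Y * t2] at hY
      exact hu (by linear_combination -hY + H X * t2)
    have n3 : X ≠ Y := by
      rintro rfl
      rw [show X + X + u = u by linear_combination X * t2] at hY
      exact hu (by linear_combination -hY + H X * t2)
    have n4 : X + Y + u ≠ u := fun h => n3 (by linear_combination h - Y * t2)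
    simp only [Finset.mem_biUnion, hW, Finset.mem_erase, Finset.mem_filter, Finset.mem_univ,
      true_and, Finset.mem_insert]
    by_cases c1 : F X = H X
    swap
    · exact ⟨X, ⟨z1, n1, c1⟩, Or.inl rfl⟩
    by_cases c2 : F Y = H Y
    swap
    · refine ⟨Y, ⟨z2, n2, c2⟩, Or.inr ?_⟩
      rw [show X + (u + Y) = X + Y + u by ring]
      exact ⟨z1, z3, by linear_combination hY - H Y * t2⟩
    by_cases c3 : F (X + Y + u) = H (X + Y + u)
    swap
    · refine ⟨X + Y + u, ⟨z3, n4, c3⟩, Or.inr ?_⟩
      rw [show X + (u + (X + Y + u)) = Y by linear_combination (X + u) * t2]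
      exact ⟨z1, z2, by linear_combination hY - H (X + Y + u) * t2⟩
    exfalso
    have ha : X + Y ≠ 0 := fun h => n3 (by linear_combination h - Y * t2)
    have hsub : ({X, Y, u} : Finset K) ⊆
        Finset.univ.filter (fun x : K => F (x + (X + Y)) + F x = F X + F Y) := by
      intro t ht
      simp only [Finset.mem_insert, Finset.mem_singleton] at ht
      simp only [Finset.mem_filter, Finset.mem_univ, true_and]
      rcases ht with rfl | rfl | rfl
      · rw [show t + (t + Y) = Y by linear_combination t * t2, add_comm]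
      · rw [show t + (X + t) = X by linear_combination t * t2]
      · rw [show t + (X + Y) = X + Y + t by ring, c1, c2, c3]
        linear_combination -hY + H (X + Y + t) * t2
    have := (Finset.card_le_card hsub).trans (hF _ ha _)
    rw [Finset.card_eq_three.mpr ⟨X, Y, u, n3, n1, n2, rfl⟩] at this
    omega
  have h2 := (Finset.card_le_card key).trans (Finset.card_biUnion_le_card_mul W _ 3 ?_)
  · omega
  · intro v hv
    have hv' : u + v ≠ 0 := fun h =>
      (Finset.mem_erase.mp (Finset.mem_erase.mp hv).2).1 (by linear_combination h - u * t2)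
    have := hH _ hv' (F u + H v)
    have h3 := Finset.card_insert_le v (Finset.univ.filter
        (fun x : K => x ≠ 0 ∧ x + (u + v) ≠ 0 ∧ H (x + (u + v)) + H x = F u + H v))
    omega

theorem E_le_S {d : ℕ} (b : K) :
    ((US K).filter (fun x => gg d b x ∈ DS K d)).card ≤
      (Finset.univ.filter (fun X : K => X ≠ 0 ∧ ∃ Y : K, Y ≠ 0 ∧ X + Y + 1 ≠ 0 ∧
        X ^ d + Y ^ d + (X + Y + 1) ^ d = b)).card := by
  have t2 := two0 (K := K)
  refine Finset.card_le_card_of_injOn (fun x => x / (x + 1)) ?_ ?_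
  · intro x hx
    simp only [Finset.coe_filter, Finset.mem_univ, true_and, Set.mem_ofPred_eq] at hx ⊢
    obtain ⟨y, hyu, hy⟩ := mem_DS.mp hx.2
    have h1 := (mem_US.mp (succ_US hx.1)).1
    have e : x / (x + 1) + y / (x + 1) + 1 = (y + 1) / (x + 1) := by
      field_simp
      linear_combination x * t2
    refine ⟨div_ne_zero (mem_US.mp hx.1).1 h1, y / (x + 1), div_ne_zero (mem_US.mp hyu).1 h1,
      ?_, ?_⟩
    · rw [e]
      exact div_ne_zero (mem_US.mp (succ_US hyu)).1 h1
    · rw [e]
      simp only [div_pow]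
      have h2 : (x + 1) ^ d ≠ 0 := pow_ne_zero _ h1
      unfold dl gg at hy
      field_simp
      linear_combination hy + x ^ d * t2
  · intro x hx y hy h
    simp only [Finset.coe_filter, Set.mem_ofPred_eq] at hx hy
    simp only at h
    rw [div_eq_div_iff (mem_US.mp (succ_US hx.1)).1 (mem_US.mp (succ_US hy.1)).1] at h
    linear_combination h

theorem zero_S {d : ℕ} (hS : ∀ y : K, mu (US K) (dl d) y ≤ 2) (hd : d ≠ 0)
    (hN : 128 ≤ Fintype.card K) :
    3 * Fintype.card K ≤ 100 *
      (Finset.univ.filter (fun X : K => X ≠ 0 ∧ ∃ Y : K, Y ≠ 0 ∧ X + Y + 1 ≠ 0 ∧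
        X ^ d + Y ^ d + (X + Y + 1) ^ d = 0)).card + 300 := by
  have t2 := two0 (K := K)
  have hR := roots_S hS hd
  have h1 := all_Zero hd hR
  set T := Finset.univ.filter fun p : K × K => p.1 ≠ 0 ∧ p.2 ≠ 0 ∧ p.1 + p.2 + 1 ≠ 0 ∧
    p.1 ^ d + p.2 ^ d + (p.1 + p.2 + 1) ^ d = 0 with hT
  set Z := Finset.univ.filter fun p : K × K => p.2 ^ d = p.1 ^ d with hZ
  set L := (US K).filter fun s => dl d s = 1 with hL
  have hZc : Z.card ≤ 3 * Fintype.card K := by
    rw [← Finset.card_univ]
    refine Finset.card_le_mul_card_image_of_maps_to (f := Prod.fst)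
      (fun _ _ => Finset.mem_univ _) 3 fun x _ => ?_
    have h3 : (Finset.univ.filter fun c : K => c ^ d = x ^ d).card ≤ 3 := by
      by_cases hx : x = 0
      · refine le_trans (Finset.card_le_card (t := {0}) fun c hc => ?_) (by simp)
        simpa [hx, hd] using hc
      · exact fib_Zero hd hR (pow_ne_zero _ hx)
    refine le_trans (Finset.card_le_card_of_injOn Prod.snd ?_ ?_) h3
    · intro p hp
      simp only [hZ, Finset.coe_filter, Finset.mem_filter, Finset.mem_univ, true_and,
        Set.mem_ofPred_eq] at hp ⊢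
      rw [hp.1, hp.2]
    · intro p hp q hq h
      simp only [Finset.coe_filter, Set.mem_ofPred_eq] at hp hq
      exact Prod.ext (hp.2.trans hq.2.symm) h
  have hLc : L.card ≤ 2 := hS 1
  have hTc : T.card ≤ 2 * (Finset.univ.filter (fun X : K => X ≠ 0 ∧ ∃ Y : K, Y ≠ 0 ∧
      X + Y + 1 ≠ 0 ∧ X ^ d + Y ^ d + (X + Y + 1) ^ d = 0)).card := by
    refine Finset.card_le_mul_card_image_of_maps_to (f := Prod.fst) ?_ 2 ?_
    · intro p hp
      simp only [hT, Finset.mem_filter, Finset.mem_univ, true_and] at hp ⊢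
      exact ⟨hp.1, p.2, hp.2⟩
    · intro X hX
      obtain ⟨_, Y, _, _, hY⟩ := (Finset.mem_filter.mp hX).2
      have hx : X + 1 ≠ 0 := fun h => by
        have e1 : X = 1 := by linear_combination h - t2
        rw [e1, show 1 + Y + 1 = Y by linear_combination t2, one_pow] at hY
        exact one_ne_zero (α := K) (by linear_combination hY - Y ^ d * t2)
      refine le_trans ?_ (apn_S hS _ hx (X ^ d))
      refine Finset.card_le_card_of_injOn Prod.snd ?_ ?_
      · intro p hp
        simp only [hT, Finset.coe_filter, Finset.mem_filter, Finset.mem_univ, true_and,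
          Set.mem_ofPred_eq] at hp ⊢
        obtain ⟨h3, h4⟩ := hp
        rw [h4] at h3
        rw [show p.2 + (X + 1) = X + p.2 + 1 by ring]
        exact ⟨h3.2.1, h3.2.2.1, by linear_combination h3.2.2.2 - X ^ d * t2⟩
      · intro p hp q hq h
        simp only [Finset.coe_filter, Set.mem_ofPred_eq] at hp hq
        exact Prod.ext (hp.2.trans hq.2.symm) h
  have h2 : (Finset.univ.filter fun p : K × K × K => p.1 ^ d + p.2.1 ^ d + p.2.2 ^ d = 0) ⊆
      ((Finset.univ.erase (0 : K)) ×ˢ T).image (fun q => (q.1 * q.2.1, q.1 * q.2.2,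
        q.1 * (q.2.1 + q.2.2 + 1))) ∪
      (((Finset.univ.erase (0 : K)) ×ˢ L).image (fun q => (q.1 * q.2, q.1 * (q.2 + 1), q.1)) ∪
      (Z.image (fun q => (0, q.1, q.2)) ∪
        (Z.image (fun q => (q.1, 0, q.2)) ∪ Z.image fun q => (q.1, q.2, 0)))) := by
    rintro ⟨x, y, z⟩ hp
    have hp' : x ^ d + y ^ d + z ^ d = 0 := (Finset.mem_filter.1 hp).2
    simp only [Finset.mem_union]
    by_cases x0 : x = 0
    · refine Or.inr (Or.inr (Or.inl (Finset.mem_image.mpr ⟨(y, z), ?_, by rw [x0]⟩)))
      rw [x0, zero_pow hd] at hp'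
      exact Finset.mem_filter.mpr ⟨Finset.mem_univ _, by linear_combination hp' - y ^ d * t2⟩
    by_cases y0 : y = 0
    · refine Or.inr (Or.inr (Or.inr (Or.inl (Finset.mem_image.mpr ⟨(x, z), ?_, by rw [y0]⟩))))
      rw [y0, zero_pow hd] at hp'
      exact Finset.mem_filter.mpr ⟨Finset.mem_univ _, by linear_combination hp' - x ^ d * t2⟩
    by_cases z0 : z = 0
    · refine Or.inr (Or.inr (Or.inr (Or.inr (Finset.mem_image.mpr ⟨(x, y), ?_, by rw [z0]⟩))))
      rw [z0, zero_pow hd] at hp'
      exact Finset.mem_filter.mpr ⟨Finset.mem_univ _, by linear_combination hp' - x ^ d * t2⟩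
    by_cases hw : x + y + z = 0
    · have e : x / z + 1 = y / z := by
        field_simp
        linear_combination hw - y * t2
      refine Or.inr (Or.inl (Finset.mem_image.mpr ⟨(z, x / z), Finset.mem_product.mpr
        ⟨by simpa using z0, Finset.mem_filter.mpr ⟨mem_US.mpr ⟨div_ne_zero x0 z0, fun h => ?_⟩,
          ?_⟩⟩, ?_⟩))
      · rw [div_eq_one_iff_eq z0] at h
        exact y0 (by linear_combination hw - h - z * t2)
      · unfold dl
        simp only [e]
        rw [div_pow, div_pow, ← add_div, div_eq_one_iff_eq (pow_ne_zero _ z0)]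
        linear_combination hp' - z ^ d * t2
      · simp only [e, mul_div_cancel₀ _ z0]
    · have e : x / (x + y + z) + y / (x + y + z) + 1 = z / (x + y + z) := by
        field_simp
        linear_combination (x + y) * t2
      refine Or.inl (Finset.mem_image.2 ⟨(x + y + z, x / (x + y + z), y / (x + y + z)),
        Finset.mem_product.2 ⟨by simpa using hw, Finset.mem_filter.2 ⟨Finset.mem_univ _,
          div_ne_zero x0 hw, div_ne_zero y0 hw, ?_, ?_⟩⟩, ?_⟩)
      · simp only [e]
        exact div_ne_zero z0 hw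
      · simp only [e]
        simp only [div_pow, ← add_div, hp', zero_div]
      · simp only [e, mul_div_cancel₀ _ hw]
  have h3 := (Finset.card_le_card h2).trans ((Finset.card_union_le _ _).trans
    (add_le_add Finset.card_image_le ((Finset.card_union_le _ _).trans
    (add_le_add Finset.card_image_le ((Finset.card_union_le _ _).trans
    (add_le_add Finset.card_image_le ((Finset.card_union_le _ _).trans
      (add_le_add Finset.card_image_le Finset.card_image_le))))))))
  rw [Finset.card_product, Finset.card_product, Finset.card_erase_of_mem (Finset.mem_univ _),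
    Finset.card_univ] at h3
  have h4 := (Nat.cast_le (α := ℝ)).2 h3
  rw [Nat.cast_add, Nat.cast_add, Nat.cast_mul, Nat.cast_mul,
    Nat.cast_pred Fintype.card_pos] at h4
  have h5 := (Nat.cast_le (α := ℝ)).mpr hN
  have h6 := (Nat.cast_le (α := ℝ)).mpr hZc
  have h7 := (Nat.cast_le (α := ℝ)).mpr hLc
  have h8 := (Nat.cast_le (α := ℝ)).mpr hTc
  rw [← Nat.cast_le (α := ℝ)]
  push_cast at h4 h5 h6 h7 h8 ⊢
  have q1 : √(Fintype.card K : ℝ) ^ 2 = Fintype.card K := Real.sq_sqrt (by linarith)
  have h9 : (Fintype.card K : ℝ) - 5 * √(Fintype.card K) - 12 ≤ T.card := by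
    refine le_of_mul_le_mul_left ?_ (show (0 : ℝ) < Fintype.card K - 1 by linarith)
    nlinarith [mul_le_mul_of_nonneg_left h7 (show (0 : ℝ) ≤ Fintype.card K - 1 by linarith)]
  nlinarith [sq_nonneg (√(Fintype.card K : ℝ) - 10)]

theorem any_dist {d : ℕ} (hN : 16 ≤ Fintype.card K)
    (hN' : Fintype.card K ≤ 100 ∨ 128 ≤ Fintype.card K) (F : K → K)
    (hF : ∀ a : K, a ≠ 0 → ∀ b : K,
      (Finset.univ.filter (fun x : K => F (x + a) + F x = b)).card ≤ 2)
    (hne : F ≠ fun x => x ^ d) :
    Fintype.card K + 100 ≤ 100 * hammingDist F (fun x => x ^ d) := by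
  by_cases hA : ∀ y : K, mu Finset.univ (dl d) y ≤ 2
  · exact power_dist hN hN' F (apn_A hA) hF hne
  by_cases h0 : F 0 = 0 ^ d
  · push Not at hA
    obtain ⟨y, hy⟩ := hA
    obtain ⟨x, _, z, _, h1, h2, h3⟩ := three hy
    have := flat_bound F hF h1 h2 h3 (Or.inl h0)
    omega
  by_cases hS : ∀ y : K, mu (US K) (dl d) y ≤ 2
  swap
  · push Not at hS
    obtain ⟨y, hy⟩ := hS
    obtain ⟨x, hx, z, hz, h1, h2, h3⟩ := three hy
    have := flat_bound F hF h1 h2 h3 (Or.inr ⟨hx, hz⟩)
    omega
  have t2 := two0 (K := K)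
  have hd : d ≠ 0 := by
    rintro rfl
    have := hS 0
    unfold mu at this
    rw [Finset.filter_true_of_mem (fun x _ => by simp [dl, CharTwo.add_self_eq_zero])] at this
    have := card_US (K := K)
    omega
  by_cases hex : ∃ u : K, u ≠ 0 ∧ F u ≠ u ^ d
  · obtain ⟨u, hu0, hu⟩ := hex
    have hp : u ^ d ≠ 0 := pow_ne_zero _ hu0
    have h1 := dist_S (fun x => x ^ d) F (apn_S hS) hF hu0 hu h0
    beta_reduce at h1
    rcases hN' with hs | hl
    · omega
    have h2 : 3 * Fintype.card K ≤ 100 *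
        (Finset.univ.filter (fun X : K => X ≠ 0 ∧ ∃ Y : K, Y ≠ 0 ∧ X + Y + 1 ≠ 0 ∧
          X ^ d + Y ^ d + (X + Y + 1) ^ d = F u / u ^ d)).card + 300 := by
      by_cases hb : F u / u ^ d = 0
      · rw [hb]
        exact zero_S hS hd hl
      · have := main_S hS hl hb (fun h => hu ((div_eq_one_iff_eq hp).mp h))
        have := E_le_S (d := d) (F u / u ^ d)
        omega
    have h3 : (Finset.univ.filter (fun X : K => X ≠ 0 ∧ ∃ Y : K, Y ≠ 0 ∧ X + Y + 1 ≠ 0 ∧
          X ^ d + Y ^ d + (X + Y + 1) ^ d = F u / u ^ d)).card ≤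
        (Finset.univ.filter (fun X : K => X ≠ 0 ∧ ∃ Y : K, Y ≠ 0 ∧ X + Y + u ≠ 0 ∧
          X ^ d + Y ^ d + (X + Y + u) ^ d = F u)).card := by
      refine Finset.card_le_card_of_injOn (fun X => u * X) ?_
        (fun x _ y _ h => mul_left_cancel₀ hu0 h)
      intro X hX
      simp only [Finset.coe_filter, Finset.mem_univ, true_and, Set.mem_ofPred_eq] at hX ⊢
      obtain ⟨x0, Y, y0, z0, hY⟩ := hX
      refine ⟨mul_ne_zero hu0 x0, u * Y, mul_ne_zero hu0 y0, ?_⟩
      rw [show u * X + u * Y + u = u * (X + Y + 1) by ring, mul_pow, mul_pow, mul_pow,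
        ← mul_add, ← mul_add, hY, mul_div_cancel₀ _ hp]
      exact ⟨mul_ne_zero hu0 z0, rfl⟩
    omega
  · exfalso
    push Not at hex
    rw [zero_pow hd] at h0
    refine vert_S hS hd hN h0 fun c hc hm => ?_
    obtain ⟨y, hyu, hy⟩ := mem_DS.mp hm
    have ci := inv_ne_zero hc
    have y0 := (mem_US.mp hyu).1
    have y1 := (mem_US.mp (succ_US hyu)).1
    have hs : ({0, c⁻¹, c⁻¹ * y} : Finset K) ⊆
        Finset.univ.filter (fun t : K => F (t + c⁻¹) + F t = c⁻¹ ^ d + F 0) := by
      intro t ht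
      simp only [Finset.mem_insert, Finset.mem_singleton] at ht
      simp only [Finset.mem_filter, Finset.mem_univ, true_and]
      rcases ht with rfl | rfl | rfl
      · rw [zero_add, hex _ ci]
      · rw [CharTwo.add_self_eq_zero, hex _ ci, add_comm]
      · rw [show c⁻¹ * y + c⁻¹ = c⁻¹ * (y + 1) by ring, hex _ (mul_ne_zero ci y1),
          hex _ (mul_ne_zero ci y0), mul_pow, mul_pow]
        have e : c⁻¹ ^ d * c ^ d = 1 := by rw [← mul_pow, inv_mul_cancel₀ hc, one_pow]
        unfold dl at hy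
        linear_combination c⁻¹ ^ d * hy + F 0 * e
    have := (Finset.card_le_card hs).trans (hF _ ci _)
    rw [Finset.card_eq_three.mpr ⟨_, _, _, ci.symm, (mul_ne_zero ci y0).symm,
      fun h => (mem_US.mp hyu).2 (mul_left_cancel₀ ci (h.symm.trans (mul_one _).symm)),
      rfl⟩] at this
    omega

end Pool.Agent.MP_942673_co.Pw
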