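import Mathlib

/-! Counting lemmas for APN power maps: collisions of `x ^ d + b (x + 1) ^ d`. -/

set_option autoImplicit false
set_option linter.unusedSectionVars false

namespace Pool.Agent.MP_942673_co.Pw

open Finset

section general
variable {I Y : Type} [DecidableEq Y]

/-- Number of preimages of `y` in `U`. -/
def mu (U : Finset I) (f : I → Y) (y : Y) : ℕ := (U.filter (fun x => f x = y)).card

theorem mu_sum (U : Finset I) (f : I → Y) (T : Finset Y) :
    ∑ y ∈ T, mu U f y = (U.filter (fun x => f x ∈ T)).card := by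
  rw [Finset.card_eq_sum_card_fiberwise (s := U.filter (fun x => f x ∈ T)) (f := f) (t := T)
    (fun x hx => (Finset.mem_filter.mp (Finset.mem_coe.mp hx)).2)]
  refine Finset.sum_congr rfl fun y hy => ?_
  unfold mu
  congr 1
  ext x
  simp only [Finset.mem_filter]
  constructor
  · rintro ⟨h1, h2⟩
    exact ⟨⟨h1, h2 ▸ hy⟩, h2⟩
  · rintro ⟨⟨h1, _⟩, h2⟩
    exact ⟨h1, h2⟩

theorem mu_mul (U : Finset I) (f g : I → Y) (T : Finset Y) :
    ∑ y ∈ T, mu U f y * mu U g y ≤ ((U ×ˢ U).filter (fun p => f p.1 = g p.2)).card := by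
  have h : ∀ y, mu U f y * mu U g y =
      mu ((U ×ˢ U).filter (fun p => f p.1 = g p.2)) (fun p => f p.1) y := by
    intro y
    unfold mu
    rw [← Finset.card_product]
    congr 1
    ext p
    simp only [Finset.mem_filter, Finset.mem_product]
    constructor
    · rintro ⟨⟨h1, h2⟩, h3, h4⟩
      exact ⟨⟨⟨h1, h3⟩, h2.trans h4.symm⟩, h2⟩
    · rintro ⟨⟨⟨h1, h3⟩, h5⟩, h2⟩
      exact ⟨⟨h1, h2⟩, h3, h5.symm.trans h2⟩
  simp only [h]
  rw [mu_sum]
  exact Finset.card_filter_le _ _

end general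

variable {K : Type} [Field K] [Fintype K] [DecidableEq K] [CharP K 2]

/-- The derivative of `x ^ d` in direction one. -/
def dl (d : ℕ) (x : K) : K := x ^ d + (x + 1) ^ d

/-- The image of the derivative. -/
def DD (K : Type) [Field K] [Fintype K] [DecidableEq K] (d : ℕ) : Finset K :=
  Finset.univ.image (dl d)

/-- The sums of a point of the graph of `x ^ d` and a point of the graph of `b x ^ d`. -/
def gg (d : ℕ) (b x : K) : K := x ^ d + b * (x + 1) ^ d

theorem two0 : (2 : K) = 0 := CharTwo.two_eq_zero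

theorem dl_succ (d : ℕ) (x : K) : dl d (x + 1) = dl d x := by
  unfold dl
  rw [add_assoc, CharTwo.add_self_eq_zero, add_zero, add_comm]

theorem mem_DD {d : ℕ} {y : K} : y ∈ DD K d ↔ ∃ x, dl d x = y := by
  simp [DD]

theorem card_DD {d : ℕ} (hA : ∀ y : K, mu Finset.univ (dl d) y ≤ 2) :
    2 * (DD K d).card = Fintype.card K := by
  have h1 := mu_sum Finset.univ (dl d : K → K) (DD K d)
  rw [Finset.filter_true_of_mem (fun x _ => mem_DD.mpr ⟨x, rfl⟩), Finset.card_univ] at h1
  rw [← h1, mul_comm, ← smul_eq_mul, ← Finset.sum_const]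
  refine Finset.sum_congr rfl fun y hy => le_antisymm ?_ (hA y)
  obtain ⟨x, rfl⟩ := mem_DD.mp hy
  have hx : x ≠ x + 1 := by simp
  rw [← Finset.card_pair hx]
  refine Finset.card_le_card fun z hz => ?_
  simp only [Finset.mem_insert, Finset.mem_singleton] at hz
  rcases hz with rfl | rfl
  · simp
  · simp [dl_succ]

theorem pairs_le {d : ℕ} (hA : ∀ y : K, mu Finset.univ (dl d) y ≤ 2) (U : Finset K)
    (f : K → K) :
    ((Finset.univ ×ˢ U).filter (fun p : K × K => dl d p.1 = f p.2)).card ≤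
      2 * (U.filter (fun w => f w ∈ DD K d)).card := by
  refine Finset.card_le_mul_card_image_of_maps_to (f := Prod.snd) ?_ 2 ?_
  · intro p hp
    simp only [Finset.mem_filter, Finset.mem_product] at hp ⊢
    exact ⟨hp.1.2, mem_DD.mpr ⟨p.1, hp.2⟩⟩
  · intro w _
    refine le_trans ?_ (hA (f w))
    unfold mu
    refine Finset.card_le_card_of_injOn Prod.fst ?_ ?_
    · intro p hp
      simp only [Finset.coe_filter, Finset.mem_filter, Finset.mem_product, Finset.mem_univ,
        true_and, Set.mem_ofPred_eq] at hp ⊢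
      rw [hp.1.2, hp.2]
    · intro p hp q hq h
      simp only [Finset.coe_filter, Finset.mem_filter, Set.mem_ofPred_eq] at hp hq
      exact Prod.ext h (hp.2.trans hq.2.symm)

theorem off_le {d : ℕ} (hA : ∀ y : K, mu Finset.univ (dl d) y ≤ 2) (b c : K) :
    (((Finset.univ.erase (1 : K)) ×ˢ (Finset.univ.erase (1 : K))).filter
      (fun p : K × K => p.1 ≠ p.2 ∧ gg d b p.1 = gg d c p.2)).card ≤
      2 * ((Finset.univ.erase (1 : K)).filter
        (fun w => b * w ^ d + c * (w + 1) ^ d ∈ DD K d)).card := by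
  refine le_trans ?_ (pairs_le hA _ (fun w => b * w ^ d + c * (w + 1) ^ d))
  have hne : ∀ x x' : K, x ≠ x' → x + x' ≠ 0 := fun x x' h h0 =>
    h (by linear_combination h0 - x' * two0 (K := K))
  refine Finset.card_le_card_of_injOn
    (fun p : K × K => (p.1 / (p.1 + p.2), (p.1 + 1) / (p.1 + p.2))) ?_ ?_
  · rintro ⟨x, x'⟩ hp
    simp only [Finset.coe_filter, Finset.mem_product, Finset.mem_erase, Finset.mem_univ,
      and_true, true_and, Set.mem_ofPred_eq] at hp ⊢
    obtain ⟨⟨_, h2⟩, h3, h4⟩ := hp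
    have ha := hne x x' h3
    have e1 : x / (x + x') + 1 = x' / (x + x') := by
      field_simp
      linear_combination x * two0 (K := K)
    have e2 : (x + 1) / (x + x') + 1 = (x' + 1) / (x + x') := by
      field_simp
      linear_combination x * two0 (K := K)
    refine ⟨fun h => h2 ?_, ?_⟩
    · rw [div_eq_one_iff_eq ha] at h
      linear_combination -h
    · unfold dl
      unfold gg at h4
      rw [e1, e2]
      simp only [div_pow]
      have hd : (x + x') ^ d ≠ 0 := pow_ne_zero _ ha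
      field_simp
      linear_combination h4 + (x' ^ d - b * (x + 1) ^ d) * two0 (K := K)
  · rintro ⟨x, x'⟩ hp ⟨z, z'⟩ hq h
    simp only [Finset.coe_filter, Set.mem_ofPred_eq] at hp hq
    have ha := hne x x' hp.2.1
    have hb := hne z z' hq.2.1
    simp only [Prod.mk.injEq] at h
    obtain ⟨h1, h2⟩ := h
    rw [div_eq_div_iff ha hb] at h1 h2
    have h3 : z + z' = x + x' := by linear_combination h2 - h1
    rw [h3] at h1
    have h4 : x = z := mul_right_cancel₀ ha h1
    refine Prod.ext h4 ?_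
    show x' = z'
    linear_combination -h3 - h4

theorem sq_mem {d : ℕ} (y : K) : y ^ 2 ∈ DD K d ↔ y ∈ DD K d := by
  have hs : ∀ x : K, dl d (x ^ 2) = dl d x ^ 2 := by
    intro x
    unfold dl
    have : x ^ 2 + 1 = (x + 1) ^ 2 := by linear_combination (-x) * two0 (K := K)
    rw [this, CharTwo.add_sq (x ^ d), ← pow_mul, ← pow_mul, ← pow_mul, ← pow_mul, mul_comm]
  have hi : Function.Injective (fun x : K => x ^ 2) := fun x y h => frobenius_inj K 2 h
  constructor
  · intro h
    obtain ⟨x, hx⟩ := mem_DD.mp h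
    obtain ⟨t, rfl⟩ := (Finite.injective_iff_surjective.mp hi) x
    exact mem_DD.mpr ⟨t, hi ((hs t).symm.trans hx)⟩
  · intro h
    obtain ⟨x, rfl⟩ := mem_DD.mp h
    exact mem_DD.mpr ⟨x ^ 2, hs x⟩

theorem A_sq {d : ℕ} (b : K) :
    ((DD K d).filter (fun y => b ^ 2 * y ∈ DD K d)).card =
      ((DD K d).filter (fun y => b * y ∈ DD K d)).card := by
  have hi : Function.Injective (fun x : K => x ^ 2) := fun x y h => frobenius_inj K 2 h
  symm
  refine Finset.card_bij (fun y _ => y ^ 2) ?_ (fun x _ y _ h => hi h) ?_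
  · intro y hy
    simp only [Finset.mem_filter] at hy ⊢
    rw [← mul_pow, sq_mem, sq_mem]
    exact hy
  · intro y hy
    obtain ⟨t, rfl⟩ := (Finite.injective_iff_surjective.mp hi) y
    simp only [Finset.mem_filter] at hy
    rw [← mul_pow, sq_mem, sq_mem] at hy
    exact ⟨t, Finset.mem_filter.mpr hy, rfl⟩

theorem coll_le {d : ℕ} (hA : ∀ y : K, mu Finset.univ (dl d) y ≤ 2) (b : K) :
    (((Finset.univ.erase (1 : K)) ×ˢ (Finset.univ.erase (1 : K))).filter
      (fun p : K × K => gg d b p.1 = gg d b p.2)).card ≤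
      (Finset.univ.erase (1 : K)).card +
        4 * ((DD K d).filter (fun y => b * y ∈ DD K d)).card := by
  have h1 := off_le hA b b
  have h2 : ((Finset.univ.erase (1 : K)).filter
      (fun w => b * w ^ d + b * (w + 1) ^ d ∈ DD K d)).card ≤
      2 * ((DD K d).filter (fun y => b * y ∈ DD K d)).card := by
    refine Finset.card_le_mul_card_image_of_maps_to (f := dl d) ?_ 2 ?_
    · intro w hw
      simp only [Finset.mem_filter] at hw ⊢
      refine ⟨mem_DD.mpr ⟨w, rfl⟩, ?_⟩
      unfold dl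
      rw [mul_add]
      exact hw.2
    · intro y _
      refine le_trans ?_ (hA y)
      exact Finset.card_le_card (Finset.filter_subset_filter _ (Finset.subset_univ _))
  have h3 : (((Finset.univ.erase (1 : K)) ×ˢ (Finset.univ.erase (1 : K))).filter
      (fun p : K × K => gg d b p.1 = gg d b p.2)) ⊆
      (Finset.univ.erase (1 : K)).diag ∪
      (((Finset.univ.erase (1 : K)) ×ˢ (Finset.univ.erase (1 : K))).filter
      (fun p : K × K => p.1 ≠ p.2 ∧ gg d b p.1 = gg d b p.2)) := by
    intro p hp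
    simp only [Finset.mem_filter, Finset.mem_union, Finset.mem_diag, Finset.mem_product] at hp ⊢
    by_cases h : p.1 = p.2
    · exact Or.inl ⟨hp.1.1, h⟩
    · exact Or.inr ⟨hp.1, h, hp.2⟩
  have h4 := (Finset.card_le_card h3).trans (Finset.card_union_le _ _)
  rw [Finset.diag_card] at h4
  omega

theorem arith (h A M : ℤ) (hh : 8 ≤ h) (hA : A ≤ h)
    (h1 : (2 * (2 * h - 1)) ^ 2 ≤ h * (2 * (2 * h - 1 + 4 * A) + 4 * M))
    (h2 : M ^ 2 ≤ (h - A) * (2 * h - 1 + 4 * A)) : False := by
  have h3 : 16 * h - 16 < 2 * (2 * h - 1 + 4 * A) + 4 * M := by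
    by_contra hc
    push Not at hc
    nlinarith
  have h4 : 3 * h - 3 - 2 * A ≤ M := by omega
  have h5 : (3 * h - 3 - 2 * A) ^ 2 ≤ M ^ 2 := by
    apply pow_le_pow_left₀ _ h4
    omega
  nlinarith [sq_nonneg (16 * A - 14 * h + 11), mul_nonneg (sub_nonneg.mpr hh) (sub_nonneg.mpr hh)]

theorem main_case {d : ℕ} (hA : ∀ y : K, mu Finset.univ (dl d) y ≤ 2)
    (hN : 16 ≤ Fintype.card K) {b : K} (hb0 : b ≠ 0) (hb1 : b ≠ 1)
    (h1 : ∀ x : K, x ≠ 1 → gg d b x ∉ DD K d)
    (h2 : ∀ x : K, x ≠ 1 → gg d (b ^ 2) x ∉ DD K d) : False := by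
  set U : Finset K := Finset.univ.erase 1 with hU
  set A := ((DD K d).filter (fun y => b * y ∈ DD K d)).card with hAdef
  set M := (U.filter (fun w => b * gg d b w ∈ DD K d)).card with hM
  have hD := card_DD hA
  have hUc : U.card + 1 = Fintype.card K := by
    rw [hU, Finset.card_erase_add_one (Finset.mem_univ _), Finset.card_univ]
  have hc : (DD K d)ᶜ.card = (DD K d).card := by
    rw [Finset.card_compl]
    omega
  have q1 := fun T => (mu_mul U (gg d b) (gg d b) T).trans (coll_le hA b)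
  have q2 := fun T => (mu_mul U (gg d (b ^ 2)) (gg d (b ^ 2)) T).trans (coll_le hA (b ^ 2))
  rw [A_sq] at q2
  rw [← hU, ← hAdef] at q1 q2
  have q3 : ∑ y ∈ (DD K d)ᶜ, mu U (gg d b) y * mu U (gg d (b ^ 2)) y ≤ 2 * M := by
    refine (mu_mul U _ _ _).trans (le_trans (Finset.card_le_card ?_)
      ((off_le hA b (b ^ 2)).trans (le_of_eq ?_)))
    · intro p hp
      simp only [Finset.mem_filter] at hp ⊢
      refine ⟨hp.1, fun h => ?_, hp.2⟩
      have h5 := hp.2
      have h6 : p.2 ≠ 1 := (Finset.mem_erase.mp (Finset.mem_product.mp hp.1).2).1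
      have h7 : (p.2 + 1) ^ d ≠ 0 := pow_ne_zero _ fun h0 =>
        h6 (by linear_combination h0 - two0 (K := K))
      rw [h] at h5
      unfold gg at h5
      have h8 : b * (b - 1) * (p.2 + 1) ^ d = 0 := by linear_combination -h5
      simp only [mul_eq_zero, sub_eq_zero] at h8
      tauto
    · congr 2
      ext w
      have : b * gg d b w = b * w ^ d + b ^ 2 * (w + 1) ^ d := by unfold gg; ring
      simp only [Finset.mem_filter, this]
      rfl
  have s1 : ∑ y ∈ (DD K d)ᶜ, mu U (gg d b) y = U.card := by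
    rw [mu_sum, Finset.filter_true_of_mem]
    exact fun x hx => Finset.mem_compl.mpr (h1 x (Finset.mem_erase.mp hx).1)
  have s2 : ∑ y ∈ (DD K d)ᶜ, mu U (gg d (b ^ 2)) y = U.card := by
    rw [mu_sum, Finset.filter_true_of_mem]
    exact fun x hx => Finset.mem_compl.mpr (h2 x (Finset.mem_erase.mp hx).1)
  have c1 : (2 * U.card) ^ 2 ≤ (DD K d).card * (2 * (U.card + 4 * A) + 4 * M) := by
    have := sq_sum_le_card_mul_sum_sq (s := (DD K d)ᶜ)
      (f := fun y => mu U (gg d b) y + mu U (gg d (b ^ 2)) y)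
    rw [Finset.sum_add_distrib, s1, s2, hc, ← two_mul] at this
    refine this.trans (Nat.mul_le_mul_left _ ?_)
    have e : ∑ y ∈ (DD K d)ᶜ, (mu U (gg d b) y + mu U (gg d (b ^ 2)) y) ^ 2 =
        ∑ y ∈ (DD K d)ᶜ, mu U (gg d b) y * mu U (gg d b) y +
        ∑ y ∈ (DD K d)ᶜ, mu U (gg d (b ^ 2)) y * mu U (gg d (b ^ 2)) y +
        2 * ∑ y ∈ (DD K d)ᶜ, mu U (gg d b) y * mu U (gg d (b ^ 2)) y := by
      rw [Finset.mul_sum, ← Finset.sum_add_distrib, ← Finset.sum_add_distrib]
      exact Finset.sum_congr rfl fun y _ => by ring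
    have := q1 (DD K d)ᶜ
    have := q2 (DD K d)ᶜ
    omega
  set T : Finset K := Finset.univ.filter (fun y => y ∉ DD K d ∧ b * y ∈ DD K d) with hT
  have t1 : T.card + A = (DD K d).card := by
    have e1 : (Finset.univ.filter (fun y => b * y ∈ DD K d)).card = (DD K d).card := by
      refine Finset.card_bij (fun y _ => b * y) (fun y hy => (Finset.mem_filter.mp hy).2)
        (fun x _ y _ h => mul_left_cancel₀ hb0 h) fun y hy => ⟨y / b, ?_, ?_⟩
      · simp only [Finset.mem_filter, Finset.mem_univ, true_and]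
        rwa [mul_div_cancel₀ _ hb0]
      · exact mul_div_cancel₀ _ hb0
    have e2 := Finset.card_filter_add_card_filter_not (s := Finset.univ.filter
      (fun y => b * y ∈ DD K d)) (fun y => y ∈ DD K d)
    have e3 : (Finset.univ.filter (fun y => b * y ∈ DD K d)).filter (fun y => y ∈ DD K d) =
        (DD K d).filter (fun y => b * y ∈ DD K d) := by
      ext y
      simp [and_comm]
    have e4 : (Finset.univ.filter (fun y => b * y ∈ DD K d)).filter (fun y => ¬ y ∈ DD K d) =
        T := by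
      ext y
      simp [hT, and_comm]
    rw [e3, e4, e1] at e2
    omega
  have c2 : M ^ 2 ≤ T.card * (U.card + 4 * A) := by
    have := sq_sum_le_card_mul_sum_sq (s := T) (f := fun y => mu U (gg d b) y)
    have e : ∑ y ∈ T, mu U (gg d b) y = M := by
      rw [mu_sum]
      congr 1
      ext w
      simp only [hT, Finset.mem_filter, Finset.mem_univ, true_and]
      exact ⟨fun h => ⟨h.1, h.2.2⟩, fun h => ⟨h.1, h1 w (Finset.mem_erase.mp h.1).1, h.2⟩⟩
    rw [e] at this
    refine this.trans (Nat.mul_le_mul_left _ ?_)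
    simpa only [sq] using q1 T
  have eU : (U.card : ℤ) = 2 * ((DD K d).card : ℤ) - 1 := by omega
  have eT : (T.card : ℤ) = ((DD K d).card : ℤ) - A := by omega
  refine arith (DD K d).card A M (by omega) (by omega) ?_ ?_
  · rw [← eU]
    exact_mod_cast c1
  · rw [← eU, ← eT]
    exact_mod_cast c2

end Pool.Agent.MP_942673_co.Pw
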