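import Pool.Agent.MP_942673_co.Pw.Count

/-! Every point is a sum of three points of the graph of an APN power map. -/

set_option autoImplicit false
set_option linter.unusedSectionVars false

namespace Pool.Agent.MP_942673_co.Pw

open Finset

variable {K : Type} [Field K] [Fintype K] [DecidableEq K] [CharP K 2]

/-- `(a, b)` is a sum of three points of the graph of `x ^ d`. -/
def Cov (d : ℕ) (a b : K) : Prop := ∃ x y z : K, x + y + z = a ∧ x ^ d + y ^ d + z ^ d = b

theorem Cov.scale {d : ℕ} {a b : K} (h : Cov d a b) (c : K) : Cov d (c * a) (c ^ d * b) := by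
  obtain ⟨x, y, z, h1, h2⟩ := h
  refine ⟨c * x, c * y, c * z, by rw [← h1]; ring, ?_⟩
  rw [← h2, mul_pow, mul_pow, mul_pow]
  ring

theorem Cov.of_sq {d : ℕ} {a b : K} (h : Cov d (a ^ 2) (b ^ 2)) : Cov d a b := by
  have hi : Function.Injective (fun x : K => x ^ 2) := fun x y h => frobenius_inj K 2 h
  have hs := Finite.injective_iff_surjective.mp hi
  obtain ⟨x, y, z, h1, h2⟩ := h
  obtain ⟨x, rfl⟩ := hs x
  obtain ⟨y, rfl⟩ := hs y
  obtain ⟨z, rfl⟩ := hs z
  refine ⟨x, y, z, hi ?_, hi ?_⟩
  · simpa only [CharTwo.add_sq] using h1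
  · simp only [CharTwo.add_sq, ← pow_mul, mul_comm d 2] at h2 ⊢
    exact h2

theorem gg_not {d : ℕ} {b : K} (h : ¬ Cov d 1 b) (x : K) (hx : x ≠ 1) : gg d b x ∉ DD K d := by
  intro hm
  obtain ⟨y, hy⟩ := mem_DD.mp hm
  have hw : x + 1 ≠ 0 := fun h0 => hx (by linear_combination h0 - two0 (K := K))
  have h1 : Cov d (x + 1) (b * (x + 1) ^ d) := by
    refine ⟨x, y, y + 1, by linear_combination y * two0 (K := K), ?_⟩
    unfold dl gg at hy
    linear_combination hy + x ^ d * two0 (K := K)
  have h2 := h1.scale (x + 1)⁻¹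
  rw [inv_mul_cancel₀ hw, mul_left_comm, ← mul_pow, inv_mul_cancel₀ hw, one_pow, mul_one] at h2
  exact h h2

theorem vert_not {d : ℕ} {e : K} (h : ¬ Cov d 0 e) (c : K) (hc : c ≠ 0) :
    1 + c ^ d * e ∉ DD K d := by
  intro hm
  obtain ⟨y, hy⟩ := mem_DD.mp hm
  have h1 : Cov d 0 (c ^ d * e) := by
    refine ⟨1, y, y + 1, by linear_combination (y + 1) * two0 (K := K), ?_⟩
    unfold dl at hy
    rw [one_pow]
    linear_combination hy + two0 (K := K)
  have h2 := h1.scale c⁻¹
  rw [mul_zero, ← mul_assoc, ← mul_pow, inv_mul_cancel₀ hc, one_pow, one_mul] at h2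
  exact h h2

theorem roots_le {d : ℕ} (hA : ∀ y : K, mu Finset.univ (dl d) y ≤ 2) :
    (Finset.univ.filter (fun r : K => r ≠ 1 ∧ r ^ d = 1)).card ≤ 2 := by
  refine le_trans ?_ (hA 0)
  unfold mu
  have hw : ∀ r : K, r ≠ 1 → r + 1 ≠ 0 := fun r hr h0 =>
    hr (by linear_combination h0 - two0 (K := K))
  refine Finset.card_le_card_of_injOn (fun r => (r + 1)⁻¹) ?_ ?_
  · intro r hr
    simp only [Finset.coe_filter, Finset.mem_univ, true_and, Set.mem_ofPred_eq] at hr ⊢
    have e : (r + 1)⁻¹ + 1 = r * (r + 1)⁻¹ := by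
      have := hw r hr.1
      field_simp
      linear_combination two0 (K := K)
    unfold dl
    rw [e, mul_pow, hr.2, one_mul, CharTwo.add_self_eq_zero]
  · intro r _ s _ h
    exact add_right_cancel (inv_injective h)

theorem root_cube {d : ℕ} (hA : ∀ y : K, mu Finset.univ (dl d) y ≤ 2) (hd : d ≠ 0) {r : K}
    (h1 : r ≠ 1) (hr : r ^ d = 1) : 1 + r + r ^ 2 = 0 := by
  by_contra hne
  have h0 : r ≠ 0 := by
    rintro rfl
    rw [zero_pow hd] at hr
    exact zero_ne_one hr
  have hs : r ^ 2 ≠ 1 := fun h => h1 (frobenius_inj K 2 (by simpa [frobenius_def] using h))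
  have h3 : r ^ 3 ≠ 1 := fun h => by
    have : (r - 1) * (1 + r + r ^ 2) = 0 := by linear_combination h
    rcases mul_eq_zero.mp this with h | h
    · exact h1 (sub_eq_zero.mp h)
    · exact hne h
  have a1 : r ≠ r ^ 2 := fun h => h1 (mul_left_cancel₀ h0 (by linear_combination -h))
  have a2 : r ≠ r ^ 3 := fun h => hs (mul_left_cancel₀ h0 (by linear_combination -h))
  have a3 : r ^ 2 ≠ r ^ 3 := fun h => a1 (mul_left_cancel₀ h0 (by linear_combination h))
  have hsub : ({r, r ^ 2, r ^ 3} : Finset K) ⊆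
      Finset.univ.filter (fun r : K => r ≠ 1 ∧ r ^ d = 1) := by
    intro t ht
    simp only [Finset.mem_insert, Finset.mem_singleton] at ht
    simp only [Finset.mem_filter, Finset.mem_univ, true_and]
    rcases ht with rfl | rfl | rfl
    · exact ⟨h1, hr⟩
    · exact ⟨hs, by rw [← pow_mul, mul_comm, pow_mul, hr, one_pow]⟩
    · exact ⟨h3, by rw [← pow_mul, mul_comm, pow_mul, hr, one_pow]⟩
  have := (Finset.card_le_card hsub).trans (roots_le hA)
  rw [Finset.card_eq_three.mpr ⟨r, r ^ 2, r ^ 3, a1, a2, a3, rfl⟩] at this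
  omega

theorem pow_fib {d : ℕ} (hA : ∀ y : K, mu Finset.univ (dl d) y ≤ 2) (f : K → K)
    (hf : Function.Injective f) (y : K) :
    mu (Finset.univ.erase (0 : K)) (fun c => f (c ^ d)) y ≤ 3 := by
  unfold mu
  rcases ((Finset.univ.erase (0 : K)).filter (fun c => f (c ^ d) = y)).eq_empty_or_nonempty with
    h | ⟨t, ht⟩
  · rw [h]
    simp
  · simp only [Finset.mem_filter, Finset.mem_erase] at ht
    have h1 : ((Finset.univ.erase (0 : K)).filter (fun c => f (c ^ d) = y)).card ≤
        (insert 1 (Finset.univ.filter (fun r : K => r ≠ 1 ∧ r ^ d = 1))).card := by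
      refine Finset.card_le_card_of_injOn (fun c => c / t) ?_ ?_
      · intro c hc
        simp only [Finset.coe_filter, Set.mem_ofPred_eq] at hc
        simp only [Finset.coe_insert, Finset.coe_filter, Finset.mem_univ, true_and,
          Set.mem_insert_iff, Set.mem_ofPred_eq]
        by_cases h : c / t = 1
        · exact Or.inl h
        · refine Or.inr ⟨h, ?_⟩
          rw [div_pow, hf (hc.2.trans ht.2.symm), div_self (pow_ne_zero _ ht.1.1)]
      · intro c _ c' _ h
        exact (div_left_inj' ht.1.1).mp h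
    have h2 := Finset.card_insert_le 1 (Finset.univ.filter (fun r : K => r ≠ 1 ∧ r ^ d = 1))
    have h3 := roots_le hA
    exact h1.trans (by omega)

theorem cover {d : ℕ} (hA : ∀ y : K, mu Finset.univ (dl d) y ≤ 2)
    (hN : 16 ≤ Fintype.card K) (a b : K) : Cov d a b := by
  have hD := card_DD hA
  have hc : (DD K d)ᶜ.card = (DD K d).card := by
    rw [Finset.card_compl]
    omega
  have hd : d ≠ 0 := by
    rintro rfl
    have := hA 0
    unfold mu at this
    rw [Finset.filter_true_of_mem (fun x _ => by simp [dl, CharTwo.add_self_eq_zero]),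
      Finset.card_univ] at this
    omega
  have hU : ∀ t : K, (Finset.univ.erase t).card + 1 = Fintype.card K := fun t => by
    rw [Finset.card_erase_add_one (Finset.mem_univ _), Finset.card_univ]
  have hinj : (¬ ∃ r : K, r ≠ 1 ∧ r ^ d = 1) → Function.Injective (fun x : K => x ^ d) := by
    intro h x y hxy
    simp only at hxy
    by_cases hy : y = 0
    · rw [hy, zero_pow hd] at hxy
      rw [hy, pow_eq_zero_iff hd |>.mp hxy]
    · by_contra hne
      refine h ⟨x / y, fun h1 => hne ((div_eq_one_iff_eq hy).mp h1), ?_⟩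
      rw [div_pow, hxy, div_self (pow_ne_zero _ hy)]
  have key : ∀ b : K, Cov d 1 b := by
    intro b
    by_contra h
    by_cases hb1 : b = 1
    · exact h ⟨1, 0, 0, by simp, by simp [hb1, hd]⟩
    by_cases hb0 : b = 0
    · subst hb0
      by_cases hr : ∃ r : K, r ≠ 1 ∧ r ^ d = 1
      · obtain ⟨r, h1, h2⟩ := hr
        have hw : 1 + r ≠ 0 := fun h0 => h1 (by linear_combination h0 - two0 (K := K))
        have h3 : Cov d (1 + r) (0 : K) :=
          ⟨1, r, 0, by simp, by simp [h2, hd, CharTwo.add_self_eq_zero]⟩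
        have h4 := h3.scale (1 + r)⁻¹
        rw [inv_mul_cancel₀ hw, mul_zero] at h4
        exact h h4
      · have h5 : (Finset.univ.erase (1 : K)).card ≤ (DD K d)ᶜ.card := by
          refine Finset.card_le_card_of_injOn (fun x => x ^ d) ?_ (hinj hr).injOn
          intro x hx
          have := gg_not h x (Finset.mem_erase.mp (Finset.mem_coe.mp hx)).1
          simpa [gg] using this
        have := hU 1
        omega
    · exact main_case hA hN hb0 hb1 (gg_not h)
        (gg_not fun h2 => h (Cov.of_sq (by rwa [one_pow])))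
  by_cases ha : a = 0
  · subst ha
    by_contra h
    have hb0 : b ≠ 0 := by
      rintro rfl
      exact h ⟨0, 0, 0, by simp, by simp [hd]⟩
    have hu := hU 0
    by_cases hr : ∃ r : K, r ≠ 1 ∧ r ^ d = 1
    · obtain ⟨r, h1, h2⟩ := hr
      have h3 := root_cube hA hd h1 h2
      have h4 : ∀ c : K, c ^ d ≠ b := fun c hcb => h ⟨c, c * r, c * r ^ 2,
        by linear_combination c * h3, by
          rw [mul_pow, mul_pow, ← pow_mul, mul_comm 2 d, pow_mul, h2, one_pow, hcb]
          linear_combination b * two0 (K := K)⟩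
      have h' : ¬ Cov d 0 (b ^ 2) := fun h2 => h (Cov.of_sq (by rwa [zero_pow two_ne_zero]))
      have i1 : ∀ e : K, e ≠ 0 → Function.Injective (fun t : K => 1 + t * e) :=
        fun e he x y hxy => mul_right_cancel₀ he (add_left_cancel hxy)
      have s1 : ∑ y ∈ (DD K d)ᶜ, mu (Finset.univ.erase (0 : K)) (fun c => 1 + c ^ d * b) y =
          (Finset.univ.erase (0 : K)).card := by
        rw [mu_sum, Finset.filter_true_of_mem]
        exact fun x hx => Finset.mem_compl.mpr (vert_not h x (Finset.mem_erase.mp hx).1)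
      have s2 : ∑ y ∈ (DD K d)ᶜ, mu (Finset.univ.erase (0 : K)) (fun c => 1 + c ^ d * b ^ 2) y =
          (Finset.univ.erase (0 : K)).card := by
        rw [mu_sum, Finset.filter_true_of_mem]
        exact fun x hx => Finset.mem_compl.mpr (vert_not h' x (Finset.mem_erase.mp hx).1)
      have s3 : ∑ y ∈ (DD K d)ᶜ, (mu (Finset.univ.erase (0 : K)) (fun c => 1 + c ^ d * b) y +
          mu (Finset.univ.erase (0 : K)) (fun c => 1 + c ^ d * b ^ 2) y) ≤
          ∑ _y ∈ (DD K d)ᶜ, 3 := by
        refine Finset.sum_le_sum fun y _ => ?_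
        have p1 := pow_fib hA _ (i1 b hb0) y
        have p2 := pow_fib hA _ (i1 (b ^ 2) (pow_ne_zero _ hb0)) y
        by_contra hcon
        have q1 : 0 < mu (Finset.univ.erase (0 : K)) (fun c => 1 + c ^ d * b) y := by omega
        have q2 : 0 < mu (Finset.univ.erase (0 : K)) (fun c => 1 + c ^ d * b ^ 2) y := by omega
        obtain ⟨u, hu⟩ := Finset.card_pos.mp q1
        obtain ⟨v, hv⟩ := Finset.card_pos.mp q2
        simp only [Finset.mem_filter, Finset.mem_erase] at hu hv
        refine h4 (u / v) ?_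
        rw [div_pow, div_eq_iff (pow_ne_zero _ hv.1.1)]
        refine mul_right_cancel₀ hb0 ?_
        linear_combination hu.2 - hv.2
      rw [Finset.sum_add_distrib, s1, s2, Finset.sum_const, smul_eq_mul] at s3
      omega
    · have h5 : (Finset.univ.erase (0 : K)).card ≤ (DD K d)ᶜ.card := by
        refine Finset.card_le_card_of_injOn (fun c => 1 + c ^ d * b) ?_ ?_
        · intro x hx
          exact Finset.mem_coe.mpr (Finset.mem_compl.mpr
            (vert_not h x (Finset.mem_erase.mp (Finset.mem_coe.mp hx)).1))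
        · intro x _ y _ hxy
          exact hinj hr (mul_right_cancel₀ hb0 (add_left_cancel hxy))
      omega
  · have h := (key (b / a ^ d)).scale a
    rwa [mul_one, mul_div_cancel₀ _ (pow_ne_zero _ ha)] at h

end Pool.Agent.MP_942673_co.Pw
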