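import Mathlib

/-! Triples of graph points of a power map with sum `(1, 0)`. -/

set_option autoImplicit false

namespace Pool.Agent.MP_942673_co.Pw

open Finset

variable {K : Type} [Field K] [Fintype K] [DecidableEq K] [CharP K 2]

theorem chr_Zero : ∃ φ : K → ℝ, (∀ x y, φ (x + y) = φ x * φ y) ∧ φ 0 = 1 ∧
    ∀ v, ∑ b, φ (b * v) = if v = 0 then (Fintype.card K : ℝ) else 0 := by
  let ψ := AddChar.FiniteField.primitiveChar_to_Complex K
  have hψ : ψ.IsPrimitive := AddChar.FiniteField.primitiveChar_to_Complex_isPrimitive K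
  have h1 : ∀ x, ψ x = ((ψ x).re : ℂ) := fun x => by
    have h : ψ x * ψ x = 1 := by rw [← ψ.map_add_eq_mul, CharTwo.add_self_eq_zero, ψ.map_zero_eq_one]
    rcases mul_self_eq_one_iff.1 h with h | h <;> simp [h]
  refine ⟨fun x => (ψ x).re, fun x y => ?_, by simp, fun v => ?_⟩
  · apply Complex.ofReal_injective
    rw [Complex.ofReal_mul, ← h1, ← h1, ← h1, ψ.map_add_eq_mul]
  · rw [← Complex.re_sum, AddChar.sum_mulShift v hψ]
    split_ifs <;> simp

omit [CharP K 2] in
theorem fib_Zero {d : ℕ} (hd : d ≠ 0) (hR : (univ.filter fun r : K => r ^ d = 1).card ≤ 3) {v : K}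
    (hv : v ≠ 0) : (univ.filter fun c : K => c ^ d = v).card ≤ 3 := by
  rcases (univ.filter fun c : K => c ^ d = v).eq_empty_or_nonempty with h | ⟨c, hc⟩
  · simp [h]
  have hc' := (mem_filter.1 hc).2
  have c0 : c ≠ 0 := fun h => hv (by rw [← hc', h, zero_pow hd])
  refine le_trans (card_le_card_of_injOn (fun x => x / c) (fun x hx => ?_) fun x _ y _ h => ?_) hR
  · have := (mem_filter.1 hx).2
    simp [div_pow, this, hc', hv]
  · exact (div_left_inj' c0).1 h

theorem all_Zero {d : ℕ} (hd : d ≠ 0) (hR : (univ.filter fun r : K => r ^ d = 1).card ≤ 3) :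
    (Fintype.card K : ℝ) ^ 2 - 5 * √(Fintype.card K) * (Fintype.card K - 1) ≤
      (univ.filter fun p : K × K × K => p.1 ^ d + p.2.1 ^ d + p.2.2 ^ d = 0).card := by
  obtain ⟨φ, f1, f0, f2⟩ := chr_Zero (K := K)
  obtain ⟨N, hN⟩ : ∃ N : ℝ, (Fintype.card K : ℝ) = N := ⟨_, rfl⟩
  have N1 : 1 < N := by rw [← hN]; exact_mod_cast Fintype.one_lt_card
  obtain ⟨S, hS⟩ : ∃ S : K → ℝ, ∀ b, S b = ∑ x, φ (b * x ^ d) := ⟨_, fun _ => rfl⟩
  have S0 : S 0 = N := by simp [hS, f0, hN]
  have cN : ((univ.erase (0 : K)).card : ℝ) = N - 1 := by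
    rw [card_erase_of_mem (mem_univ _), card_univ, Nat.cast_pred Fintype.card_pos, hN]
  have e3 : ∑ b, S b ^ 3 = N *
      (univ.filter fun p : K × K × K => p.1 ^ d + p.2.1 ^ d + p.2.2 ^ d = 0).card := by
    have : ∀ b, S b ^ 3 = ∑ p : K × K × K, φ (b * (p.1 ^ d + p.2.1 ^ d + p.2.2 ^ d)) := fun b => by
      simp only [mul_add, f1, Fintype.sum_prod_type, mul_assoc, ← mul_sum, ← sum_mul, ← hS]
      ring
    simp only [this]
    rw [sum_comm]
    simp only [f2, hN]
    rw [← sum_filter, sum_const, nsmul_eq_mul, mul_comm]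
  have e2 : ∑ b ∈ univ.erase 0, S b ^ 2 ≤ 2 * N * (N - 1) := by
    have h1 : ∀ b, S b ^ 2 = ∑ x : K, ∑ y : K, φ (b * (x ^ d + y ^ d)) := fun b => by
      simp only [mul_add, f1, ← mul_sum, ← sum_mul, ← hS]
      ring
    have h2 : ∑ b, S b ^ 2 = ∑ x : K, N * (univ.filter fun y : K => y ^ d = x ^ d).card := by
      simp only [h1]
      rw [sum_comm]
      refine sum_congr rfl fun x _ => ?_
      rw [sum_comm]
      simp only [f2, hN, CharTwo.add_eq_zero]
      rw [← sum_filter, sum_const, nsmul_eq_mul, mul_comm]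
      simp only [eq_comm]
    have h3 : ∑ x ∈ univ.erase (0 : K), N * ((univ.filter fun y : K => y ^ d = x ^ d).card : ℝ) ≤
        (N - 1) * (N * 3) := by
      rw [← cN, ← nsmul_eq_mul]
      refine sum_le_card_nsmul _ _ _ fun x hx => mul_le_mul_of_nonneg_left ?_ (by linarith)
      exact_mod_cast fib_Zero hd hR (pow_ne_zero d (ne_of_mem_erase hx))
    have h4 : (univ.filter fun y : K => y ^ d = 0 ^ d) = {0} := by
      ext y
      simp [hd]
    rw [← add_sum_erase _ _ (mem_univ (0 : K)), ← add_sum_erase _ _ (mem_univ (0 : K)), S0, h4,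
      card_singleton] at h2
    push_cast at h2
    nlinarith
  have e4 : ∀ b ∈ univ.erase (0 : K), S b ^ 2 ≤ 6 * N := fun b hb => by
    have b0 := ne_of_mem_erase hb
    have h1 : ∀ c ∈ univ.erase (0 : K), S (b * c ^ d) = S b := fun c hc => by
      rw [hS, hS, ← Equiv.sum_comp (Equiv.mulLeft₀ c (ne_of_mem_erase hc)) fun x => φ (b * x ^ d)]
      simp [mul_pow, mul_assoc]
    have h2 : ∑ c ∈ univ.erase (0 : K), S (b * c ^ d) ^ 2 ≤ ∑ v ∈ univ.erase (0 : K), 3 * S v ^ 2 := by
      rw [← sum_fiberwise_of_maps_to (t := univ.erase (0 : K)) (g := fun c => b * c ^ d)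
        fun c hc => by simp [b0, ne_of_mem_erase hc]]
      refine sum_le_sum fun v hv => ?_
      rw [sum_congr rfl fun c hc => by rw [(mem_filter.1 hc).2], sum_const, nsmul_eq_mul]
      refine mul_le_mul_of_nonneg_right ?_ (sq_nonneg _)
      have := (card_le_card (s := (univ.erase (0 : K)).filter fun c => b * c ^ d = v) fun c hc =>
        mem_filter.2 ⟨mem_univ _, eq_div_of_mul_eq b0 (by
          rw [mul_comm]; exact (mem_filter.1 hc).2)⟩).trans
        (fib_Zero hd hR (div_ne_zero (ne_of_mem_erase hv) b0))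
      exact_mod_cast this
    rw [sum_congr rfl fun c hc => by rw [h1 c hc], sum_const, nsmul_eq_mul, cN, ← mul_sum] at h2
    nlinarith
  have q0 := Real.sqrt_nonneg N
  have q1 : √N ^ 2 = N := Real.sq_sqrt (by linarith)
  have e5 : ∑ b ∈ univ.erase (0 : K), -(5 / 2 * √N * S b ^ 2) ≤ ∑ b ∈ univ.erase 0, S b ^ 3 :=
    sum_le_sum fun b hb => by
      have h1 : -(5 / 2 * √N) ≤ S b := (abs_le.1 (abs_le_of_sq_le_sq' (by
        nlinarith [e4 b hb]) (by positivity) |> abs_le.2)).1
      nlinarith [mul_le_mul_of_nonneg_right h1 (sq_nonneg (S b))]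
  rw [sum_neg_distrib, ← mul_sum] at e5
  rw [← add_sum_erase _ _ (mem_univ (0 : K)), S0] at e3
  rw [hN]
  refine le_of_mul_le_mul_left ?_ (show 0 < N by linarith)
  nlinarith [mul_le_mul_of_nonneg_left e2 (show 0 ≤ 5 / 2 * √N by positivity)]

theorem zero_Zero {d : ℕ} (hd : d ≠ 0) (hR : (univ.filter fun r : K => r ^ d = 1).card ≤ 3)
    (h0 : ∀ x y : K, x ^ d + y ^ d + (x + y) ^ d = 0 → x = 0 ∨ y = 0 ∨ x = y) :
    (Fintype.card K : ℝ) - 5 * √(Fintype.card K) - 4 ≤
      (univ.filter fun p : K × K => p.1 ^ d + p.2 ^ d + (p.1 + p.2 + 1) ^ d = 0).card := by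
  have h1 := all_Zero hd hR
  have N1 : (1 : ℝ) < Fintype.card K := by exact_mod_cast Fintype.one_lt_card
  set T := univ.filter fun p : K × K => p.1 ^ d + p.2 ^ d + (p.1 + p.2 + 1) ^ d = 0 with hT
  have two : (2 : K) = 0 := CharTwo.two_eq_zero
  have h2 : (univ.filter fun p : K × K × K => p.1 ^ d + p.2.1 ^ d + p.2.2 ^ d = 0) ⊆
      ((univ.erase (0 : K)) ×ˢ T).image (fun q => (q.1 * q.2.1, q.1 * q.2.2,
        q.1 * (q.2.1 + q.2.2 + 1))) ∪ (univ.image (fun x => (0, x, x)) ∪
        (univ.image (fun x => (x, 0, x)) ∪ univ.image fun x => (x, x, 0))) := by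
    rintro ⟨x, y, z⟩ hp
    have hp' : x ^ d + y ^ d + z ^ d = 0 := (mem_filter.1 hp).2
    by_cases hw : x + y + z = 0
    · obtain rfl : z = x + y := by linear_combination hw - (x + y) * two
      rcases h0 x y hp' with rfl | rfl | rfl <;> simp [CharTwo.add_self_eq_zero]
    · have e : x / (x + y + z) + y / (x + y + z) + 1 = z / (x + y + z) := by
        field_simp
        linear_combination (x + y) * two
      refine mem_union_left _ (mem_image.2 ⟨(x + y + z, x / (x + y + z), y / (x + y + z)),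
        mem_product.2 ⟨by simpa using hw, mem_filter.2 ⟨mem_univ _, ?_⟩⟩, ?_⟩)
      · simp only [e]
        simp only [div_pow, ← add_div, hp', zero_div]
      · simp only [e, mul_div_cancel₀ _ hw]
  have h3 := (card_le_card h2).trans ((card_union_le _ _).trans (add_le_add card_image_le
    ((card_union_le _ _).trans (add_le_add card_image_le
      ((card_union_le _ _).trans (add_le_add card_image_le card_image_le))))))
  rw [card_product, card_erase_of_mem (mem_univ _), card_univ] at h3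
  have h4 := (Nat.cast_le (α := ℝ)).2 h3
  rw [Nat.cast_add, Nat.cast_mul, Nat.cast_pred Fintype.card_pos] at h4
  push_cast at h4
  have N2 : (2 : ℝ) ≤ Fintype.card K := by exact_mod_cast Fintype.one_lt_card
  refine le_of_mul_le_mul_left ?_ (show (0 : ℝ) < Fintype.card K - 1 by linarith)
  nlinarith

end Pool.Agent.MP_942673_co.Pw
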