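import Pool.Agent.MP_942673_co.Pw.Robust
import Pool.Agent.MP_942673_co.Pw.Zero

/-! Distance of an APN function from an APN power map. -/

set_option autoImplicit false
set_option linter.unusedSectionVars false

namespace Pool.Agent.MP_942673_co.Pw

open Finset

variable {K : Type} [Field K] [Fintype K] [DecidableEq K] [CharP K 2]

theorem zero_many {d : ℕ} (hA : ∀ y : K, mu Finset.univ (dl d) y ≤ 2)
    (hH : ∀ a : K, a ≠ 0 → ∀ b : K,
      (Finset.univ.filter (fun x : K => (x + a) ^ d + x ^ d = b)).card ≤ 2)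
    (hN : 128 ≤ Fintype.card K) :
    3 * Fintype.card K ≤ 100 *
      (Finset.univ.filter (fun X : K => ∃ Y : K, X ^ d + Y ^ d + (X + Y + 1) ^ d = 0)).card := by
  have t2 := two0 (K := K)
  have hd : d ≠ 0 := by
    rintro rfl
    have := hA 0
    unfold mu at this
    rw [Finset.filter_true_of_mem (fun x _ => by simp [dl, CharTwo.add_self_eq_zero]),
      Finset.card_univ] at this
    omega
  have hR : (Finset.univ.filter fun r : K => r ^ d = 1).card ≤ 3 := by
    have h1 : (Finset.univ.filter fun r : K => r ^ d = 1) ⊆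
        insert 1 (Finset.univ.filter (fun r : K => r ≠ 1 ∧ r ^ d = 1)) := by
      intro r hr
      by_cases h : r = 1
      · simp [h]
      · simpa [h] using hr
    have h2 := (Finset.card_le_card h1).trans (Finset.card_insert_le _ _)
    have h3 := roots_le hA
    omega
  have h0 : ∀ x y : K, x ^ d + y ^ d + (x + y) ^ d = 0 → x = 0 ∨ y = 0 ∨ x = y := by
    intro x y h
    by_contra hc
    push Not at hc
    obtain ⟨c1, c2, c3⟩ := hc
    have ha : x + y ≠ 0 := fun h => c3 (by linear_combination h - y * t2)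
    have hsub : ({x, y, 0} : Finset K) ⊆
        Finset.univ.filter (fun t : K => (t + (x + y)) ^ d + t ^ d = (x + y) ^ d) := by
      intro t ht
      simp only [Finset.mem_insert, Finset.mem_singleton] at ht
      simp only [Finset.mem_filter, Finset.mem_univ, true_and]
      rcases ht with rfl | rfl | rfl
      · rw [show t + (t + y) = y by linear_combination t * t2]
        linear_combination h - (t + y) ^ d * t2
      · rw [show t + (x + t) = x by linear_combination t * t2]
        linear_combination h - (x + t) ^ d * t2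
      · simp [hd]
    have := (Finset.card_le_card hsub).trans (hH _ ha _)
    rw [Finset.card_eq_three.mpr ⟨x, y, 0, c3, c1, c2, rfl⟩] at this
    omega
  have h1 := zero_Zero hd hR h0
  have h2 : (Finset.univ.filter fun p : K × K =>
      p.1 ^ d + p.2 ^ d + (p.1 + p.2 + 1) ^ d = 0).card ≤ 2 *
      (Finset.univ.filter (fun X : K => ∃ Y : K, X ^ d + Y ^ d + (X + Y + 1) ^ d = 0)).card := by
    refine Finset.card_le_mul_card_image_of_maps_to (f := Prod.fst) ?_ 2 ?_
    · intro p hp
      simp only [Finset.mem_filter, Finset.mem_univ, true_and] at hp ⊢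
      exact ⟨p.2, hp⟩
    · intro X hX
      obtain ⟨Y, hY⟩ := (Finset.mem_filter.mp hX).2
      have hx : X + 1 ≠ 0 := fun h => by
        have e1 : X = 1 := by linear_combination h - t2
        rw [e1, show 1 + Y + 1 = Y by linear_combination t2, one_pow] at hY
        exact one_ne_zero (α := K) (by linear_combination hY - Y ^ d * t2)
      refine le_trans ?_ (hH _ hx (X ^ d))
      refine Finset.card_le_card_of_injOn Prod.snd ?_ ?_
      · intro p hp
        simp only [Finset.coe_filter, Finset.mem_filter, Finset.mem_univ, true_and,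
          Set.mem_ofPred_eq] at hp ⊢
        obtain ⟨h3, h4⟩ := hp
        rw [h4] at h3
        rw [show p.2 + (X + 1) = X + p.2 + 1 by ring]
        linear_combination h3 - X ^ d * t2
      · intro p hp q hq h
        simp only [Finset.coe_filter, Finset.mem_filter, Set.mem_ofPred_eq] at hp hq
        exact Prod.ext (hp.2.trans hq.2.symm) h
  have h3 := (Nat.cast_le (α := ℝ)).mpr h2
  have h4 := (Nat.cast_le (α := ℝ)).mpr hN
  rw [← Nat.cast_le (α := ℝ)]
  push_cast at h3 h4 ⊢
  have q1 : √(Fintype.card K : ℝ) ^ 2 = Fintype.card K := Real.sq_sqrt (by linarith)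
  nlinarith [sq_nonneg (√(Fintype.card K : ℝ) - 10)]

theorem one_many {d : ℕ} (hA : ∀ y : K, mu Finset.univ (dl d) y ≤ 2)
    (hH : ∀ a : K, a ≠ 0 → ∀ b : K,
      (Finset.univ.filter (fun x : K => (x + a) ^ d + x ^ d = b)).card ≤ 2)
    (hN : 128 ≤ Fintype.card K) {b : K} (hb1 : b ≠ 1) :
    3 * Fintype.card K ≤ 100 *
      (Finset.univ.filter (fun X : K => ∃ Y : K, X ^ d + Y ^ d + (X + Y + 1) ^ d = b)).card := by
  by_cases hb0 : b = 0
  · subst hb0
    exact zero_many hA hH hN
  · exact (main_many hA hN hb0 hb1).trans (Nat.mul_le_mul_left _ (E_le b))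

theorem power_dist {d : ℕ} (hN : 16 ≤ Fintype.card K)
    (hN' : Fintype.card K ≤ 100 ∨ 128 ≤ Fintype.card K) (F : K → K)
    (hH : ∀ a : K, a ≠ 0 → ∀ b : K,
      (Finset.univ.filter (fun x : K => (x + a) ^ d + x ^ d = b)).card ≤ 2)
    (hF : ∀ a : K, a ≠ 0 → ∀ b : K,
      (Finset.univ.filter (fun x : K => F (x + a) + F x = b)).card ≤ 2)
    (hne : F ≠ fun x => x ^ d) :
    Fintype.card K + 100 ≤ 100 * hammingDist F (fun x => x ^ d) := by
  have hA : ∀ y : K, mu Finset.univ (dl d) y ≤ 2 := fun y => by
    have := hH 1 one_ne_zero y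
    unfold mu dl
    simpa only [add_comm] using this
  have two : ∀ u : K, F u ≠ u ^ d → 2 ≤ hammingDist F (fun x => x ^ d) := by
    intro u hu
    have h1 := dist_lemma (fun x => x ^ d) F hH hF hu
    obtain ⟨x, y, z, h2, h3⟩ := cover hA hN u (F u)
    have h4 : 0 < (Finset.univ.filter (fun X : K => ∃ Y : K,
        X ^ d + Y ^ d + (X + Y + u) ^ d = F u)).card := by
      refine Finset.card_pos.mpr ⟨x, Finset.mem_filter.mpr ⟨Finset.mem_univ _, y, ?_⟩⟩
      rw [show x + y + u = z by linear_combination -h2 + (x + y) * two0 (K := K)]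
      exact h3
    beta_reduce at h1
    omega
  obtain ⟨u0, hu0⟩ := Function.ne_iff.mp hne
  rcases hN' with hs | hl
  · have := two u0 hu0
    omega
  by_cases hex : ∃ u : K, u ≠ 0 ∧ F u ≠ u ^ d
  · obtain ⟨u, h0, hu⟩ := hex
    have hp : u ^ d ≠ 0 := pow_ne_zero _ h0
    have h1 := dist_lemma (fun x => x ^ d) F hH hF hu
    have h2 := one_many hA hH hl (b := F u / u ^ d)
      (fun h => hu ((div_eq_one_iff_eq hp).mp h))
    have h3 : (Finset.univ.filter (fun X : K => ∃ Y : K,
        X ^ d + Y ^ d + (X + Y + 1) ^ d = F u / u ^ d)).card ≤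
        (Finset.univ.filter (fun X : K => ∃ Y : K,
        X ^ d + Y ^ d + (X + Y + u) ^ d = F u)).card := by
      refine Finset.card_le_card_of_injOn (fun X => u * X) ?_
        (fun x _ y _ h => mul_left_cancel₀ h0 h)
      intro X hX
      simp only [Finset.coe_filter, Finset.mem_univ, true_and, Set.mem_ofPred_eq] at hX ⊢
      obtain ⟨Y, hY⟩ := hX
      refine ⟨u * Y, ?_⟩
      rw [show u * X + u * Y + u = u * (X + Y + 1) by ring, mul_pow, mul_pow, mul_pow,
        ← mul_add, ← mul_add, hY, mul_div_cancel₀ _ hp]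
    beta_reduce at h1
    omega
  · exfalso
    have h1 := two u0 hu0
    have h2 : hammingDist F (fun x => x ^ d) ≤ 1 := by
      unfold hammingDist
      refine le_trans (Finset.card_le_card (t := {0}) fun u hu => ?_) (by simp)
      by_contra h
      exact hex ⟨u, fun h0 => h (by simp [h0]), (Finset.mem_filter.mp hu).2⟩
    omega

end Pool.Agent.MP_942673_co.Pw
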