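import Pool.Agent.MP_942673_co.Pw.Cover

/-! Many representations as a sum of three points of the graph of an APN power map. -/

set_option autoImplicit false
set_option linter.unusedSectionVars false

namespace Pool.Agent.MP_942673_co.Pw

open Finset

variable {K : Type} [Field K] [Fintype K] [DecidableEq K] [CharP K 2]

theorem arith2 (h A M M' E u : ℤ) (hh : 64 ≤ h) (hA : A ≤ h) (hE : 50 * E < 3 * h)
    (hE0 : 0 ≤ E) (hu : u + E = 2 * h - 1) (hM : M ≤ E + M')
    (h1 : (2 * u) ^ 2 ≤ h * (2 * (2 * h - 1 + 4 * A) + 4 * M))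
    (h2 : M' ^ 2 ≤ (h - A) * (2 * h - 1 + 4 * A)) : False := by
  have hu' : u = 2 * h - 1 - E := by omega
  subst hu'
  have h3 : 16 * h - 16 - 16 * E ≤ 2 * (2 * h - 1 + 4 * A) + 4 * M := by
    by_contra hc
    push Not at hc
    nlinarith [sq_nonneg (1 + E)]
  have h4 : 529 * h - 400 * A ≤ 200 * M' := by omega
  have h5 : (529 * h - 400 * A) ^ 2 ≤ (200 * M') ^ 2 := by
    apply pow_le_pow_left₀ _ h4
    omega
  nlinarith [sq_nonneg (800 * A - 629 * h), mul_pos (by omega : 0 < h) (by omega : 0 < h)]

theorem E_sq {d : ℕ} (b : K) :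
    ((Finset.univ.erase (1 : K)).filter (fun x => gg d (b ^ 2) x ∈ DD K d)).card =
      ((Finset.univ.erase (1 : K)).filter (fun x => gg d b x ∈ DD K d)).card := by
  have hi : Function.Injective (fun x : K => x ^ 2) := fun x y h => frobenius_inj K 2 h
  have hs : ∀ x : K, gg d (b ^ 2) (x ^ 2) = gg d b x ^ 2 := by
    intro x
    unfold gg
    have : x ^ 2 + 1 = (x + 1) ^ 2 := by linear_combination (-x) * two0 (K := K)
    rw [this, CharTwo.add_sq (x ^ d), mul_pow, ← pow_mul, ← pow_mul, ← pow_mul, ← pow_mul,
      mul_comm 2 d]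
  have h1 : ∀ x : K, x ^ 2 ≠ 1 ↔ x ≠ 1 := fun x =>
    not_congr ⟨fun h => hi (by simpa using h), fun h => by rw [h, one_pow]⟩
  symm
  refine Finset.card_bij (fun y _ => y ^ 2) ?_ (fun x _ y _ h => hi h) ?_
  · intro y hy
    simp only [Finset.mem_filter, Finset.mem_erase, Finset.mem_univ, and_true] at hy ⊢
    rw [hs, sq_mem, h1]
    exact hy
  · intro y hy
    obtain ⟨t, rfl⟩ := (Finite.injective_iff_surjective.mp hi) y
    simp only [Finset.mem_filter, Finset.mem_erase, Finset.mem_univ, and_true] at hy
    rw [hs, sq_mem, h1] at hy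
    exact ⟨t, by simpa using hy, rfl⟩

theorem main_many {d : ℕ} (hA : ∀ y : K, mu Finset.univ (dl d) y ≤ 2)
    (hN : 128 ≤ Fintype.card K) {b : K} (hb0 : b ≠ 0) (hb1 : b ≠ 1) :
    3 * Fintype.card K ≤
      100 * ((Finset.univ.erase (1 : K)).filter (fun x => gg d b x ∈ DD K d)).card := by
  by_contra hcon
  have hE2 := E_sq (d := d) b
  set U : Finset K := Finset.univ.erase 1 with hU
  set E := (U.filter (fun x => gg d b x ∈ DD K d)).card with hE
  set A := ((DD K d).filter (fun y => b * y ∈ DD K d)).card with hAdef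
  set M := (U.filter (fun w => b * gg d b w ∈ DD K d)).card with hM
  have hD := card_DD hA
  have hUc : U.card + 1 = Fintype.card K := by
    rw [hU, Finset.card_erase_add_one (Finset.mem_univ _), Finset.card_univ]
  have hc : (DD K d)ᶜ.card = (DD K d).card := by
    rw [Finset.card_compl]
    omega
  have q1 := fun T => (mu_mul U (gg d b) (gg d b) T).trans (coll_le hA b)
  have q2 := fun T => (mu_mul U (gg d (b ^ 2)) (gg d (b ^ 2)) T).trans (coll_le hA (b ^ 2))
  rw [A_sq] at q2
  rw [← hU, ← hAdef] at q1 q2
  have q3 : ∑ y ∈ (DD K d)ᶜ, mu U (gg d b) y * mu U (gg d (b ^ 2)) y ≤ 2 * M := by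
    refine (mu_mul U _ _ _).trans (le_trans (Finset.card_le_card ?_)
      ((off_le hA b (b ^ 2)).trans (le_of_eq ?_)))
    · intro p hp
      simp only [Finset.mem_filter] at hp ⊢
      refine ⟨hp.1, fun h => ?_, hp.2⟩
      have h5 := hp.2
      have h6 : p.2 ≠ 1 := (Finset.mem_erase.mp (Finset.mem_product.mp hp.1).2).1
      have h7 : (p.2 + 1) ^ d ≠ 0 := pow_ne_zero _ fun h0 =>
        h6 (by linear_combination h0 - two0 (K := K))
      rw [h] at h5
      unfold gg at h5
      have h8 : b * (b - 1) * (p.2 + 1) ^ d = 0 := by linear_combination -h5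
      simp only [mul_eq_zero, sub_eq_zero] at h8
      tauto
    · congr 2
      ext w
      have : b * gg d b w = b * w ^ d + b ^ 2 * (w + 1) ^ d := by unfold gg; ring
      simp only [Finset.mem_filter, this]
      rfl
  obtain ⟨u, hu⟩ : ∃ u, u + E = U.card := ⟨U.card - E,
    Nat.sub_add_cancel (Finset.card_filter_le _ _)⟩
  have s1 : ∑ y ∈ (DD K d)ᶜ, mu U (gg d b) y = u := by
    have := Finset.card_filter_add_card_filter_not (s := U) (fun x => gg d b x ∈ DD K d)
    rw [mu_sum]
    simp only [Finset.mem_compl]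
    omega
  have s2 : ∑ y ∈ (DD K d)ᶜ, mu U (gg d (b ^ 2)) y = u := by
    have := Finset.card_filter_add_card_filter_not (s := U) (fun x => gg d (b ^ 2) x ∈ DD K d)
    rw [mu_sum]
    simp only [Finset.mem_compl]
    omega
  have c1 : (2 * u) ^ 2 ≤ (DD K d).card * (2 * (U.card + 4 * A) + 4 * M) := by
    have := sq_sum_le_card_mul_sum_sq (s := (DD K d)ᶜ)
      (f := fun y => mu U (gg d b) y + mu U (gg d (b ^ 2)) y)
    rw [Finset.sum_add_distrib, s1, s2, hc, ← two_mul] at this
    refine this.trans (Nat.mul_le_mul_left _ ?_)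
    have e : ∑ y ∈ (DD K d)ᶜ, (mu U (gg d b) y + mu U (gg d (b ^ 2)) y) ^ 2 =
        ∑ y ∈ (DD K d)ᶜ, mu U (gg d b) y * mu U (gg d b) y +
        ∑ y ∈ (DD K d)ᶜ, mu U (gg d (b ^ 2)) y * mu U (gg d (b ^ 2)) y +
        2 * ∑ y ∈ (DD K d)ᶜ, mu U (gg d b) y * mu U (gg d (b ^ 2)) y := by
      rw [Finset.mul_sum, ← Finset.sum_add_distrib, ← Finset.sum_add_distrib]
      exact Finset.sum_congr rfl fun y _ => by ring
    have := q1 (DD K d)ᶜ
    have := q2 (DD K d)ᶜ
    omega
  set T : Finset K := Finset.univ.filter (fun y => y ∉ DD K d ∧ b * y ∈ DD K d) with hT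
  have t1 : T.card + A = (DD K d).card := by
    have e1 : (Finset.univ.filter (fun y => b * y ∈ DD K d)).card = (DD K d).card := by
      refine Finset.card_bij (fun y _ => b * y) (fun y hy => (Finset.mem_filter.mp hy).2)
        (fun x _ y _ h => mul_left_cancel₀ hb0 h) fun y hy => ⟨y / b, ?_, ?_⟩
      · simp only [Finset.mem_filter, Finset.mem_univ, true_and]
        rwa [mul_div_cancel₀ _ hb0]
      · exact mul_div_cancel₀ _ hb0
    have e2 := Finset.card_filter_add_card_filter_not (s := Finset.univ.filter
      (fun y => b * y ∈ DD K d)) (fun y => y ∈ DD K d)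
    have e3 : (Finset.univ.filter (fun y => b * y ∈ DD K d)).filter (fun y => y ∈ DD K d) =
        (DD K d).filter (fun y => b * y ∈ DD K d) := by
      ext y
      simp [and_comm]
    have e4 : (Finset.univ.filter (fun y => b * y ∈ DD K d)).filter (fun y => ¬ y ∈ DD K d) =
        T := by
      ext y
      simp [hT, and_comm]
    rw [e3, e4, e1] at e2
    omega
  set M' := (U.filter (fun w => gg d b w ∈ T)).card with hM'
  have m1 : M ≤ E + M' := by
    refine le_trans (Finset.card_le_card ?_) (Finset.card_union_le _ _)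
    intro w hw
    simp only [hT, Finset.mem_filter, Finset.mem_union, Finset.mem_univ, true_and] at hw ⊢
    by_cases h : gg d b w ∈ DD K d
    · exact Or.inl ⟨hw.1, h⟩
    · exact Or.inr ⟨hw.1, h, hw.2⟩
  have c2 : M' ^ 2 ≤ T.card * (U.card + 4 * A) := by
    have := sq_sum_le_card_mul_sum_sq (s := T) (f := fun y => mu U (gg d b) y)
    rw [mu_sum] at this
    refine this.trans (Nat.mul_le_mul_left _ ?_)
    simpa only [sq] using q1 T
  have eU : (U.card : ℤ) = 2 * ((DD K d).card : ℤ) - 1 := by omega
  have eT : (T.card : ℤ) = ((DD K d).card : ℤ) - A := by omega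
  refine arith2 (DD K d).card A M M' E u (by omega) (by omega) (by omega) (by omega) (by omega)
    (by omega) ?_ ?_
  · rw [← eU]
    exact_mod_cast c1
  · rw [← eU, ← eT]
    exact_mod_cast c2

/-- The points of triples on the graph of `H` with sum `(u, F u)` are at most three times the
number of other changed points. -/
theorem dist_lemma (H F : K → K)
    (hH : ∀ a : K, a ≠ 0 → ∀ b : K,
      (Finset.univ.filter (fun x : K => H (x + a) + H x = b)).card ≤ 2)
    (hF : ∀ a : K, a ≠ 0 → ∀ b : K,
      (Finset.univ.filter (fun x : K => F (x + a) + F x = b)).card ≤ 2)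
    {u : K} (hu : F u ≠ H u) :
    (Finset.univ.filter (fun X : K => ∃ Y : K, H X + H Y + H (X + Y + u) = F u)).card + 3 ≤
      3 * hammingDist F H := by
  set W : Finset K := (Finset.univ.filter (fun v => F v ≠ H v)).erase u with hW
  have hWc : W.card + 1 = hammingDist F H := by
    rw [hW, Finset.card_erase_add_one (by simpa using hu)]
    rfl
  have t2 := two0 (K := K)
  have key : (Finset.univ.filter (fun X : K => ∃ Y : K, H X + H Y + H (X + Y + u) = F u)) ⊆
      W.biUnion (fun v => insert v (Finset.univ.filter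
        (fun x : K => H (x + (u + v)) + H x = F u + H v))) := by
    intro X hX
    obtain ⟨Y, hY⟩ := (Finset.mem_filter.mp hX).2
    have n1 : X ≠ u := by
      rintro rfl
      rw [show X + Y + X = Y by linear_combination X * t2] at hY
      exact hu (by linear_combination -hY + H Y * t2)
    have n2 : Y ≠ u := by
      rintro rfl
      rw [show X + Y + Y = X by linear_combination Y * t2] at hY
      exact hu (by linear_combination -hY + H X * t2)
    have n3 : X ≠ Y := by
      rintro rfl
      rw [show X + X + u = u by linear_combination X * t2] at hY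
      exact hu (by linear_combination -hY + H X * t2)
    have n4 : X + Y + u ≠ u := fun h => n3 (by linear_combination h - Y * t2)
    simp only [Finset.mem_biUnion, hW, Finset.mem_erase, Finset.mem_filter, Finset.mem_univ,
      true_and, Finset.mem_insert]
    by_cases c1 : F X = H X
    swap
    · exact ⟨X, ⟨n1, c1⟩, Or.inl rfl⟩
    by_cases c2 : F Y = H Y
    swap
    · refine ⟨Y, ⟨n2, c2⟩, Or.inr ?_⟩
      rw [show X + (u + Y) = X + Y + u by ring]
      linear_combination hY - H Y * t2
    by_cases c3 : F (X + Y + u) = H (X + Y + u)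
    swap
    · refine ⟨X + Y + u, ⟨n4, c3⟩, Or.inr ?_⟩
      rw [show X + (u + (X + Y + u)) = Y by linear_combination (X + u) * t2]
      linear_combination hY - H (X + Y + u) * t2
    exfalso
    have ha : X + Y ≠ 0 := fun h => n3 (by linear_combination h - Y * t2)
    have hsub : ({X, Y, u} : Finset K) ⊆
        Finset.univ.filter (fun x : K => F (x + (X + Y)) + F x = F X + F Y) := by
      intro t ht
      simp only [Finset.mem_insert, Finset.mem_singleton] at ht
      simp only [Finset.mem_filter, Finset.mem_univ, true_and]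
      rcases ht with rfl | rfl | rfl
      · rw [show t + (t + Y) = Y by linear_combination t * t2, add_comm]
      · rw [show t + (X + t) = X by linear_combination t * t2]
      · rw [show t + (X + Y) = X + Y + t by ring, c1, c2, c3]
        linear_combination -hY + H (X + Y + t) * t2
    have := (Finset.card_le_card hsub).trans (hF _ ha _)
    rw [Finset.card_eq_three.mpr ⟨X, Y, u, n3, n1, n2, rfl⟩] at this
    omega
  have h2 := (Finset.card_le_card key).trans (Finset.card_biUnion_le_card_mul W _ 3 ?_)
  · omega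
  · intro v hv
    have hv' : u + v ≠ 0 := fun h =>
      (Finset.mem_erase.mp hv).1 (by linear_combination h - u * t2)
    have := hH _ hv' (F u + H v)
    have h3 := Finset.card_insert_le v (Finset.univ.filter
        (fun x : K => H (x + (u + v)) + H x = F u + H v))
    omega

/-- The solutions counted by `main_many` give points of triples. -/
theorem E_le {d : ℕ} (b : K) :
    ((Finset.univ.erase (1 : K)).filter (fun x => gg d b x ∈ DD K d)).card ≤
      (Finset.univ.filter (fun X : K => ∃ Y : K, X ^ d + Y ^ d + (X + Y + 1) ^ d = b)).card := by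
  have t2 := two0 (K := K)
  have hw : ∀ x : K, x ≠ 1 → x + 1 ≠ 0 := fun x hx h0 => hx (by linear_combination h0 - t2)
  refine Finset.card_le_card_of_injOn (fun x => x / (x + 1)) ?_ ?_
  · intro x hx
    simp only [Finset.coe_filter, Finset.mem_erase, Finset.mem_univ, and_true, true_and,
      Set.mem_ofPred_eq] at hx ⊢
    obtain ⟨y, hy⟩ := mem_DD.mp hx.2
    have h1 := hw x hx.1
    refine ⟨y / (x + 1), ?_⟩
    have e : x / (x + 1) + y / (x + 1) + 1 = (y + 1) / (x + 1) := by
      field_simp
      linear_combination x * t2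
    rw [e]
    simp only [div_pow]
    have h2 : (x + 1) ^ d ≠ 0 := pow_ne_zero _ h1
    unfold dl gg at hy
    field_simp
    linear_combination hy + x ^ d * t2
  · intro x hx y hy h
    simp only [Finset.coe_filter, Finset.mem_erase, Set.mem_ofPred_eq] at hx hy
    simp only at h
    rw [div_eq_div_iff (hw x hx.1.1) (hw y hy.1.1)] at h
    linear_combination h

end Pool.Agent.MP_942673_co.Pw
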